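import Pool.Agent.H91.OR.Defs
import Pool.Agent.H8.RG.Cpt

set_option autoImplicit false

/-!
# The exceptional curvature tensors, all degrees
-/

namespace Pool.Agent.H91.AR

open Pool.Agent.H61.YP Pool.Agent.H8.RG Pool.Agent.H91.OR
open scoped BigOperators RealInnerProductSpace

variable {n : ℕ}

/-- `J` is skew, `J³ = -J` and `J²` has the trace `-r`: a complex structure on a subspace of
dimension `r`, zero on its orthogonal complement -/
def IsPart (J : E n →ₗ[ℝ] E n) (r : ℝ) : Prop :=
  (∀ x y : E n, ⟪J x, y⟫ = -⟪x, J y⟫) ∧ (∀ x : E n, J (J (J x)) = -J x) ∧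
    ∑ i, ⟪J (J (e i)), (e i : E n)⟫ = -r

/-- `R` is, up to a positive factor, `c` times the curvature tensor of the unit sphere plus the
curvature tensor with the sectional curvatures `3 ⟪J x, y⟫²`, for a partial complex structure `J`
of rank `r` -/
def IsModel (R : CurvTensor n) (c r : ℝ) : Prop :=
  ∃ (l : ℝ) (J : E n →ₗ[ℝ] E n), 0 < l ∧ IsPart J r ∧
    ∀ x y z u : E n, R.toFun x y z u = l * (c * sphForm x y z u + kahForm J x y z u)

lemma model_smul' (S : CurvTensor n) (a c r : ℝ) (ha : 0 < a) (hS : IsModel S c r) :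
    IsModel (smulT a S) c r := by
  obtain ⟨l, J, hl, hJ, h⟩ := hS
  refine ⟨a * l, J, mul_pos ha hl, hJ, fun x y z u => ?_⟩
  change a * S.toFun x y z u = _
  rw [h]
  ring

end Pool.Agent.H91.AR
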