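import Pool.Agent.H91.AR.P12
import Pool.Agent.H91.AR.Mod

set_option autoImplicit false

/-!
# The forms of the equality case are not parallel, if `J` has a kernel
-/

namespace Pool.Agent.H91.AR

open Pool.Agent.H61.YP Pool.Agent.H8.RG Pool.Agent.H91.OC Pool.Agent.H91.OR Pool.Agent.H91.SX
  Pool.Agent.H21.OS
open scoped BigOperators RealInnerProductSpace

variable {n : ℕ}

private theorem A_inner_op (R : CurvTensor n) (x y z u : E n) :
    ⟪R.op x y z, u⟫ = R.toFun x y z u := by
  have h : R.L4 x y z (∑ i, u i • (e i : E n)) = R.toFun x y z u := by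
    rw [sum_coord]
    rfl
  rw [← h, map_sum]
  unfold CurvTensor.op
  rw [sum_inner]
  refine Finset.sum_congr rfl fun i _ => ?_
  rw [real_inner_smul_left, real_inner_comm, inner_e_right, map_smul, smul_eq_mul, mul_comm]
  rfl

/-- the curvature operator does not kill the form -/
theorem act_ne_all {p : ℕ} (hp : p + 1 < n) (R : CurvTensor n) (l c : ℝ) (hl : 0 < l)
    (hc : 0 < c) (J : E n →ₗ[ℝ] E n) (ν : E n) (hν : ‖ν‖ = 1) (hJν : J ν = 0)
    (hs : ∀ x y : E n, ⟪J x, y⟫ = -⟪x, J y⟫)
    (hR : ∀ x y z u : E n, R.toFun x y z u = l * (c * sphForm x y z u + kahForm J x y z u))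
    (ω : Form n (p + 1)) (hω : ω ≠ 0) :
    ∃ (x y : E n) (v : Fin (p + 1) → E n), R.act ω x y v ≠ 0 := by
  by_contra hcon
  push Not at hcon
  refine hω (act_zero ω hp ν hν fun y => ?_)
  ext v
  have hop : ∀ z : E n, R.op ν y z = (l * c) • (⟪y, z⟫ • ν - ⟪ν, z⟫ • y) := by
    intro z
    refine ext_inner_right ℝ fun u => ?_
    rw [A_inner_op, hR, real_inner_smul_left, inner_sub_left, real_inner_smul_left,
      real_inner_smul_left]
    unfold sphForm kahForm
    have h1 : ⟪ν, J y⟫ = 0 := by
      have := hs ν y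
      rw [hJν, inner_zero_left] at this
      linarith
    rw [h1, hJν, inner_zero_left, inner_zero_left]
    ring
  have h1 := hcon ν y v
  unfold CurvTensor.act at h1
  have h2 : ∀ b : Fin (p + 1), ω (Function.update v b (R.op ν y (v b)))
      = (l * c) * (ω (Function.update v b (⟪y, v b⟫ • ν)) - ω (Function.update v b (⟪ν, v b⟫ • y))) := by
    intro b
    rw [hop, AlternatingMap.map_update_smul, AlternatingMap.map_update_sub, smul_eq_mul]
  simp_rw [h2] at h1
  rw [← Finset.mul_sum, Finset.sum_sub_distrib, upd_wedge, upd_wedge] at h1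
  have h3 : (l * c) * (Lw y (ω.curryLeft ν) v - Lw ν (ω.curryLeft y) v) = 0 := by linarith
  have h4 := (mul_eq_zero.1 h3).resolve_left (mul_pos hl hc).ne'
  linarith

end Pool.Agent.H91.AR
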