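import Pool.Agent.H91.OR.Fin
import Pool.Agent.H91.OR.H
import Pool.Agent.H21.OS.Wedge

set_option autoImplicit false

/-!
# Project AR: exterior multiplication, contraction and derivations
-/

namespace Pool.Agent.H91.AR

open Pool.Agent.H61.YP Pool.Agent.H8.RG Pool.Agent.H91.OC Pool.Agent.H21.OS
open scoped BigOperators RealInnerProductSpace

variable {n : ℕ}

lemma Lw_add_left {p : ℕ} (x y : E n) (α : Form n p) : Lw (x + y) α = Lw x α + Lw y α := by
  unfold Lw; rw [map_add]; rfl

lemma Lw_smul_left {p : ℕ} (c : ℝ) (x : E n) (α : Form n p) : Lw (c • x) α = c • Lw x α := by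
  unfold Lw; rw [map_smul]; rfl

lemma Lw_neg_left {p : ℕ} (x : E n) (α : Form n p) : Lw (-x) α = -Lw x α := by
  unfold Lw; rw [map_neg]; rfl

lemma Lw_sub_left {p : ℕ} (x y : E n) (α : Form n p) : Lw (x - y) α = Lw x α - Lw y α := by
  unfold Lw; rw [map_sub]; rfl

lemma Lw_zero_left {p : ℕ} (α : Form n p) : Lw (0 : E n) α = 0 := by
  unfold Lw; rw [map_zero]; rfl

lemma Lw_sum_left {p : ℕ} {ι : Type*} (s : Finset ι) (f : ι → E n) (α : Form n p) :
    Lw (∑ i ∈ s, f i) α = ∑ i ∈ s, Lw (f i) α := by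
  unfold Lw; rw [map_sum, LinearMap.sum_apply]

lemma Lw_add {p : ℕ} (x : E n) (α β : Form n p) : Lw x (α + β) = Lw x α + Lw x β := by
  unfold Lw; rw [map_add]

lemma Lw_sub {p : ℕ} (x : E n) (α β : Form n p) : Lw x (α - β) = Lw x α - Lw x β := by
  unfold Lw; rw [map_sub]

lemma Lw_smul {p : ℕ} (x : E n) (c : ℝ) (α : Form n p) : Lw x (c • α) = c • Lw x α := by
  unfold Lw; rw [map_smul]

lemma Lw_neg {p : ℕ} (x : E n) (α : Form n p) : Lw x (-α) = -Lw x α := by
  unfold Lw; rw [map_neg]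

lemma Lw_zero {p : ℕ} (x : E n) : Lw x (0 : Form n p) = 0 := by
  unfold Lw; rw [map_zero]

lemma Lw_sum {p : ℕ} {ι : Type*} (s : Finset ι) (x : E n) (f : ι → Form n p) :
    Lw x (∑ i ∈ s, f i) = ∑ i ∈ s, Lw x (f i) := by
  unfold Lw; rw [map_sum]

/-- contraction as a linear map in the form -/
noncomputable def ctr {p : ℕ} (x : E n) : Form n (p + 1) →ₗ[ℝ] Form n p :=
  (LinearMap.applyₗ x) ∘ₗ (AlternatingMap.curryLeftLinearMap (R := ℝ) (M := E n) (N := ℝ) (n := p))

lemma ctr_apply {p : ℕ} (x : E n) (ω : Form n (p + 1)) : ctr x ω = ω.curryLeft x := rfl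

lemma curry_add {p : ℕ} (ω η : Form n (p + 1)) (x : E n) :
    (ω + η).curryLeft x = ω.curryLeft x + η.curryLeft x := by
  rw [← ctr_apply, map_add]; rfl

lemma curry_sub {p : ℕ} (ω η : Form n (p + 1)) (x : E n) :
    (ω - η).curryLeft x = ω.curryLeft x - η.curryLeft x := by
  rw [← ctr_apply, map_sub]; rfl

lemma curry_neg {p : ℕ} (ω : Form n (p + 1)) (x : E n) :
    (-ω).curryLeft x = -ω.curryLeft x := by
  rw [← ctr_apply, map_neg]; rfl

lemma curry_smul {p : ℕ} (c : ℝ) (ω : Form n (p + 1)) (x : E n) :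
    (c • ω).curryLeft x = c • ω.curryLeft x := by
  rw [← ctr_apply, map_smul]; rfl

lemma curry_zero {p : ℕ} (x : E n) : (0 : Form n (p + 1)).curryLeft x = 0 := by
  rw [← ctr_apply, map_zero]

lemma curry_sum' {p : ℕ} {ι : Type*} (s : Finset ι) (f : ι → Form n (p + 1)) (x : E n) :
    (∑ i ∈ s, f i).curryLeft x = ∑ i ∈ s, (f i).curryLeft x := by
  rw [← ctr_apply, map_sum]; rfl

/-- contractions anticommute -/
lemma curry_swap' {p : ℕ} (ω : Form n (p + 2)) (x y : E n) :
    (ω.curryLeft x).curryLeft y = -(ω.curryLeft y).curryLeft x := curry_swap ω x y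

/-- a form without contractions is zero -/
lemma form_zero {p : ℕ} (D : Form n (p + 1)) (h : ∀ z, D.curryLeft z = 0) : D = 0 := by
  ext v
  have h1 := congrArg (fun F : Form n p => F (Matrix.vecTail v)) (h (v 0))
  simp only [AlternatingMap.curryLeft_apply_apply] at h1
  have h2 : (Matrix.vecCons (v 0) (Matrix.vecTail v) : Fin (p + 1) → E n) = v :=
    Matrix.cons_head_tail v
  rw [h2] at h1
  simpa using h1

lemma inner_e (i j : Fin n) : ⟪(e i : E n), e j⟫ = if i = j then (1 : ℝ) else 0 := by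
  unfold e
  rw [EuclideanSpace.inner_single_left]
  simp

lemma inner_e_right (x : E n) (i : Fin n) : ⟪x, (e i : E n)⟫ = x i := by
  unfold e
  rw [EuclideanSpace.inner_single_right]
  simp

lemma sum_inner_smul (x : E n) : ∑ i, ⟪x, (e i : E n)⟫ • (e i : E n) = x := by
  simp_rw [inner_e_right]
  exact sum_coord x

/-- the derivation of the exterior algebra extending `A` -/
noncomputable def DA {p : ℕ} (A : E n →ₗ[ℝ] E n) (ω : Form n (p + 1)) : Form n (p + 1) :=
  ∑ i, Lw (A (e i)) (ω.curryLeft (e i))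

/-- the Jacobi operator `v ↦ W(v, x) x` as a linear map -/
noncomputable def jacL (W : CurvTensor n) (x : E n) : E n →ₗ[ℝ] E n where
  toFun v := jac W x v
  map_add' v v' := jac_add W x v v'
  map_smul' c v := jac_smul W c x v

lemma jacL_apply (W : CurvTensor n) (x v : E n) : jacL W x v = jac W x v := rfl

/-- the Ricci curvature as a linear map -/
noncomputable def ricL (W : CurvTensor n) : E n →ₗ[ℝ] E n := ∑ i, jacL W (e i)

lemma ricL_apply (W : CurvTensor n) (x : E n) : ricL W x = ∑ i, jac W (e i) x := by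
  unfold ricL
  rw [LinearMap.sum_apply]
  rfl

lemma inner_ricL (W : CurvTensor n) (x y : E n) :
    ⟪ricL W x, y⟫ = ∑ i, W.toFun (e i) x y (e i) := by
  rw [ricL_apply, sum_inner]
  exact Finset.sum_congr rfl fun i _ => inner_jac W (e i) x y

/-- the polarised Jacobi operator -/
noncomputable def jacP (W : CurvTensor n) (x y v : E n) : E n :=
  ∑ k, (W.toFun x v (e k) y + W.toFun y v (e k) x) • (e k : E n)

end Pool.Agent.H91.AR
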