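import Pool.Agent.H91.AR.Defs

set_option autoImplicit false

/-!
# Project AR, piece P2: the Euler equation of the two extremal quadratic forms
-/

namespace Pool.Agent.H91.AR

open Pool.Agent.H61.YP Pool.Agent.H8.RG Pool.Agent.H91.OC Pool.Agent.H91.OR Pool.Agent.H91.SX
  Pool.Agent.H21.OS
open scoped BigOperators RealInnerProductSpace

variable {n : ℕ}

private lemma ip_addr {p : ℕ} (φ ψ χ : Form n p) : ip φ (ψ + χ) = ip φ ψ + ip φ χ := by
  rw [ip_comm, ip_add_left, ip_comm ψ, ip_comm χ]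

private lemma ip_smulr {p : ℕ} (c : ℝ) (φ ψ : Form n p) : ip φ (c • ψ) = c * ip φ ψ := by
  rw [ip_comm, ip_smul_left, ip_comm]

private lemma ip_quad {p : ℕ} (t : ℝ) (a b c d : Form n p) :
    ip (a + t • b) (c + t • d) = ip a c + t * (ip a d + ip b c) + t ^ 2 * ip b d := by
  rw [ip_add_left, ip_addr, ip_addr, ip_smul_left, ip_smul_left, ip_smulr, ip_smulr]
  ring

/-- a quadratic `a t + b t ^ 2` which is nonnegative has no linear term -/
private lemma lin_zero (a b : ℝ) (h : ∀ t : ℝ, 0 ≤ t * a + t ^ 2 * b) : a = 0 := by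
  by_contra ha
  have hB : 0 < |b| + 1 := by positivity
  have h1 := h (-a / (|b| + 1))
  have h2 : -a / (|b| + 1) * a + (-a / (|b| + 1)) ^ 2 * b
      = a ^ 2 / (|b| + 1) ^ 2 * (b - (|b| + 1)) := by
    field_simp
    ring
  rw [h2] at h1
  have h3 : 0 < a ^ 2 / (|b| + 1) ^ 2 := by positivity
  have h4 : b - (|b| + 1) < 0 := by linarith [le_abs_self b]
  have h5 := mul_neg_of_pos_of_neg h3 h4
  linarith

/-- the mixed second contraction -/
private noncomputable def PM {q : ℕ} (w : Fin n → Fin n → Fin n → Fin n → ℝ)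
    (ω η : Form n (q + 2)) : ℝ :=
  ∑ i, ∑ j, ∑ k, ∑ l, w i j k l *
    (ip ((ω.curryLeft (e l)).curryLeft (e j)) ((η.curryLeft (e i)).curryLeft (e k))
      + ip ((η.curryLeft (e l)).curryLeft (e j)) ((ω.curryLeft (e i)).curryLeft (e k)))

/-- the mixed first contraction -/
private noncomputable def RM {q : ℕ} (w : Fin n → Fin n → Fin n → Fin n → ℝ)
    (ω η : Form n (q + 1)) : ℝ :=
  ∑ j, ∑ k, ricA w j k * (ip (ω.curryLeft (e j)) (η.curryLeft (e k))
    + ip (η.curryLeft (e j)) (ω.curryLeft (e k)))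

private lemma QA_quad {q : ℕ} (w : Fin n → Fin n → Fin n → Fin n → ℝ)
    (ω η : Form n (q + 2)) (t : ℝ) :
    QA w (ω + t • η) = QA w ω + t * PM w ω η + t ^ 2 * QA w η := by
  unfold QA PM
  simp only [Finset.mul_sum, ← Finset.sum_add_distrib]
  refine Finset.sum_congr rfl fun i _ => Finset.sum_congr rfl fun j _ =>
    Finset.sum_congr rfl fun k _ => Finset.sum_congr rfl fun l _ => ?_
  unfold Gm
  rw [curry_add, curry_add, curry_smul, curry_smul, curry_add, curry_add, curry_smul, curry_smul,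
    ip_quad]
  ring

private lemma rA_quad {q : ℕ} (w : Fin n → Fin n → Fin n → Fin n → ℝ)
    (ω η : Form n (q + 1)) (t : ℝ) :
    rA w (ω + t • η) = rA w ω + t * RM w ω η + t ^ 2 * rA w η := by
  unfold rA RM
  simp only [Finset.mul_sum, ← Finset.sum_add_distrib]
  refine Finset.sum_congr rfl fun j _ => Finset.sum_congr rfl fun k _ => ?_
  rw [MB_apply, MB_apply, MB_apply, curry_add, curry_add, curry_smul, curry_smul, ip_quad]
  ring

private lemma ricA_comm (W : CurvTensor n) (j k : Fin n) :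
    ricA W.comp j k = ricA W.comp k j := by
  unfold ricA
  refine Finset.sum_congr rfl fun i _ => ?_
  exact W.isCurv.flip i j k i

private lemma ricL_e (W : CurvTensor n) (j : Fin n) :
    ricL W (e j) = ∑ k, ricA W.comp j k • (e k : E n) := by
  rw [← sum_inner_smul (ricL W (e j))]
  refine Finset.sum_congr rfl fun k _ => ?_
  rw [inner_ricL]
  rfl

private lemma half_RM {q : ℕ} (W : CurvTensor n) (ω η : Form n (q + 1)) :
    ∑ j, ∑ k, ricA W.comp j k * ip (ω.curryLeft (e j)) (η.curryLeft (e k))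
      = ∑ j, ip (ω.curryLeft (e j)) (η.curryLeft (ricL W (e j))) := by
  refine Finset.sum_congr rfl fun j _ => ?_
  rw [ricL_e, map_sum, ← ipB_apply, map_sum]
  refine Finset.sum_congr rfl fun k _ => ?_
  rw [map_smul, ipB_apply, ip_smulr]

private lemma RM_eq {q : ℕ} (W : CurvTensor n) (ω η : Form n (q + 1)) :
    RM W.comp ω η = 2 * ∑ j, ip (ω.curryLeft (e j)) (η.curryLeft (ricL W (e j))) := by
  rw [← half_RM, two_mul]
  unfold RM
  simp only [mul_add, Finset.sum_add_distrib]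
  congr 1
  rw [Finset.sum_comm]
  refine Finset.sum_congr rfl fun j _ => Finset.sum_congr rfl fun k _ => ?_
  rw [ricA_comm, ip_comm]

private lemma ip_DA' {p : ℕ} (A : E n →ₗ[ℝ] E n) (ω η : Form n (p + 1)) :
    ip (DA A ω) η = ((p : ℝ) + 1) * ∑ i, ip (ω.curryLeft (e i)) (η.curryLeft (A (e i))) := by
  unfold DA
  rw [ip_comm, ← ipB_apply, map_sum, Finset.mul_sum]
  refine Finset.sum_congr rfl fun i _ => ?_
  rw [ipB_apply, ip_comm, adj]

theorem kernel_eq {q : ℕ} (W : CurvTensor n) (β : ℝ)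
    (h1 : ∀ η : Form n (q + 2), 3 * (((q : ℝ) + 1) * QA W.comp η)
      ≤ scalA W.comp * ip η η + (1 - (q : ℝ)) * rA W.comp η)
    (h2 : ∀ η : Form n (q + 2), 3 * (((q : ℝ) + 1) * QA W.comp η) ≤ (β + 3) * rA W.comp η)
    (ω : Form n (q + 2))
    (e1 : 3 * (((q : ℝ) + 1) * QA W.comp ω)
      = scalA W.comp * ip ω ω + (1 - (q : ℝ)) * rA W.comp ω)
    (e2 : 3 * (((q : ℝ) + 1) * QA W.comp ω) = (β + 3) * rA W.comp ω) :
    (β + (q + 2)) • DA (ricL W) ω = (((q : ℝ) + 2) * scalA W.comp) • ω := by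
  have key : ∀ η : Form n (q + 2), (β + (q + 2)) * ip (DA (ricL W) ω) η
      = (((q : ℝ) + 2) * scalA W.comp) * ip ω η := by
    intro η
    have a1 : 2 * scalA W.comp * ip ω η + (1 - (q : ℝ)) * RM W.comp ω η
        - 3 * (((q : ℝ) + 1) * PM W.comp ω η) = 0 := by
      refine lin_zero _ (scalA W.comp * ip η η + (1 - (q : ℝ)) * rA W.comp η
        - 3 * (((q : ℝ) + 1) * QA W.comp η)) fun t => ?_
      have h := h1 (ω + t • η)
      rw [QA_quad, rA_quad, ip_quad, ip_comm η ω] at h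
      nlinarith [h, e1]
    have a2 : (β + 3) * RM W.comp ω η - 3 * (((q : ℝ) + 1) * PM W.comp ω η) = 0 := by
      refine lin_zero _ ((β + 3) * rA W.comp η - 3 * (((q : ℝ) + 1) * QA W.comp η)) fun t => ?_
      have h := h2 (ω + t • η)
      rw [QA_quad, rA_quad] at h
      nlinarith [h, e2]
    have a3 : (β + (q + 2)) * RM W.comp ω η = 2 * scalA W.comp * ip ω η := by linarith
    have a4 := ip_DA' (ricL W) ω η
    have a5 := RM_eq W ω η
    push_cast at a4
    have a6 : 2 * ip (DA (ricL W) ω) η = ((q : ℝ) + 2) * RM W.comp ω η := by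
      rw [a4, a5]; ring
    have a7 : 2 * ((β + (q + 2)) * ip (DA (ricL W) ω) η)
        = 2 * ((((q : ℝ) + 2) * scalA W.comp) * ip ω η) := by
      calc 2 * ((β + (q + 2)) * ip (DA (ricL W) ω) η)
          = (β + (q + 2)) * (2 * ip (DA (ricL W) ω) η) := by ring
        _ = ((q : ℝ) + 2) * ((β + (q + 2)) * RM W.comp ω η) := by rw [a6]; ring
        _ = 2 * ((((q : ℝ) + 2) * scalA W.comp) * ip ω η) := by rw [a3]; ring
    linarith
  by_contra hne
  have hD : (β + (q + 2)) • DA (ricL W) ω - (((q : ℝ) + 2) * scalA W.comp) • ω ≠ 0 :=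
    sub_ne_zero.2 hne
  have hp := CurvTensor.ip_pos _ hD
  have hz : ip ((β + (q + 2)) • DA (ricL W) ω - (((q : ℝ) + 2) * scalA W.comp) • ω)
      ((β + (q + 2)) • DA (ricL W) ω - (((q : ℝ) + 2) * scalA W.comp) • ω) = 0 := by
    have hs : ∀ D : Form n (q + 2), ip ((β + (q + 2)) • DA (ricL W) ω
        - (((q : ℝ) + 2) * scalA W.comp) • ω) D = 0 := by
      intro D
      rw [sub_eq_add_neg, ip_add_left, ip_neg_left, ip_smul_left, ip_smul_left, key D]
      ring
    exact hs _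
  linarith

end Pool.Agent.H91.AR
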