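import Pool.Agent.H8.RG.CoreEq
import Pool.Agent.H91.OC.CoreA
import Pool.Agent.H21.OS.Wedge

set_option autoImplicit false

/-!
# Project AR, piece P3: the kernel of the first contraction inequality
-/

namespace Pool.Agent.H91.AR

open Pool.Agent.H61.YP Pool.Agent.H8.RG Pool.Agent.H91.OC 
  Pool.Agent.H21.OS
open scoped BigOperators RealInnerProductSpace

variable {n : ℕ}

/-- equality in `core_gen`: the quartic form vanishes -/
private theorem P3_core_zero {q : ℕ} {w : Fin n → Fin n → Fin n → Fin n → ℝ} (h : IsCurv w)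
    (hpos : ∀ x v : Fin n → ℝ,
      0 ≤ ∑ j, ∑ k, v j * v k * (∑ i, ∑ l, x i * x l * w i j k l))
    (ω : Form n (q + 2)) (α β : ℝ) (hα : 0 ≤ α) (hβ : 0 ≤ β) (hαβ : α + β = 1)
    (h0 : α * (scalA w * ip ω ω) + (β * n - ((q : ℝ) + 1)) * rA w ω
      + (2 * rA w ω - ((q : ℝ) + 1) * (3 * QA w ω)) = 0) (x : Fin n → ℝ) :
    ∑ j, ∑ k, (∑ i, ∑ l, x i * x l * w i j k l)
      * (∑ a, ∑ b, x a * x b * Ym ω α β a b j k) = 0 := by
  have hT1 : ∀ j k : Fin n, ∑ a, Ym ω α β a a j k
      = α * (ip ω ω * dl j k) + (β * n - ((q : ℝ) + 1)) * MB ω (e j) (e k) := by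
    intro j k
    unfold Ym
    rw [Finset.sum_sub_distrib, Finset.sum_add_distrib, ← Finset.mul_sum, ← Finset.mul_sum,
      ← Finset.mul_sum, ← Finset.sum_mul, ← Finset.sum_mul, trace_MB, Gm_trace]
    have : ∑ i : Fin n, dl i i = n := by simp [dl]
    rw [this]; ring
  have hfirst : ∑ j, ∑ k, (∑ i, w i j k i) * (∑ a, Ym ω α β a a j k)
      = α * (scalA w * ip ω ω) + (β * n - ((q : ℝ) + 1)) * rA w ω := by
    simp_rw [hT1]
    have : ∀ j k : Fin n, (∑ i, w i j k i) *
        (α * (ip ω ω * dl j k) + (β * n - ((q : ℝ) + 1)) * MB ω (e j) (e k))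
        = α * ip ω ω * (ricA w j k * dl j k)
          + (β * n - ((q : ℝ) + 1)) * (ricA w j k * MB ω (e j) (e k)) := by
      intro j k; unfold ricA; ring
    simp_rw [this, Finset.sum_add_distrib, ← Finset.mul_sum]
    have h1 : ∑ j, ∑ k, ricA w j k * dl j k = scalA w := by
      unfold scalA
      refine Finset.sum_congr rfl fun j _ => ?_
      simp [dl]
    rw [h1]
    unfold rA
    ring
  have hsecond : ∑ j, ∑ k, ∑ i, ∑ l, w i j k l * (Ym ω α β i l j k + Ym ω α β l i j k)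
      = (2 * α + 2 * β) * rA w ω - ((q : ℝ) + 1) * (3 * QA w ω) := by
    have hexp : ∀ j k i l : Fin n, w i j k l * (Ym ω α β i l j k + Ym ω α β l i j k)
        = 2 * α * (dl j k * w i j k l * MB ω (e i) (e l))
          + 2 * β * (dl i l * w i j k l * MB ω (e j) (e k))
          - ((q : ℝ) + 1) * (w i j k l * Gm ω i j l k)
          - ((q : ℝ) + 1) * (w i j k l * Gm ω l j i k) := by
      intro j k i l
      unfold Ym
      rw [MB_comm ω (e l) (e i), dl_comm l i]
      ring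
    simp_rw [hexp, Finset.sum_sub_distrib, Finset.sum_add_distrib, ← Finset.mul_sum]
    have s1 : ∑ j, ∑ k, ∑ i, ∑ l, dl j k * w i j k l * MB ω (e i) (e l) = rA w ω := by
      have a1 : ∀ j : Fin n, ∑ k, ∑ i, ∑ l, dl j k * w i j k l * MB ω (e i) (e l)
          = ∑ i, ∑ l, w i j j l * MB ω (e i) (e l) := by
        intro j
        rw [Finset.sum_eq_single j]
        · simp [dl]
        · intro k _ hk
          simp [dl, Ne.symm hk]
        · simp
      simp_rw [a1]
      rw [Finset.sum_comm]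
      unfold rA
      refine Finset.sum_congr rfl fun i _ => ?_
      rw [Finset.sum_comm]
      refine Finset.sum_congr rfl fun l _ => ?_
      rw [← Finset.sum_mul, ricA_eq h]
    have s2 : ∑ j, ∑ k, ∑ i, ∑ l, dl i l * w i j k l * MB ω (e j) (e k) = rA w ω := by
      unfold rA ricA
      refine Finset.sum_congr rfl fun j _ => Finset.sum_congr rfl fun k _ => ?_
      rw [Finset.sum_mul]
      refine Finset.sum_congr rfl fun i _ => ?_
      simp [dl]
    have perm : ∀ f : Fin n → Fin n → Fin n → Fin n → ℝ,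
        ∑ j, ∑ k, ∑ i, ∑ l, f i j k l = ∑ i, ∑ j, ∑ k, ∑ l, f i j k l := by
      intro f
      rw [rot3 (fun i j k l => f i j k l)]
    have s3 : ∑ j, ∑ k, ∑ i, ∑ l, w i j k l * Gm ω i j l k = 2 * QA w ω := by
      rw [perm (fun i j k l => w i j k l * Gm ω i j l k), H4_eq h]
    have s4 : ∑ j, ∑ k, ∑ i, ∑ l, w i j k l * Gm ω l j i k = QA w ω := by
      rw [perm (fun i j k l => w i j k l * Gm ω l j i k)]; rfl
    rw [s1, s2, s3, s4]
    ring
  have hm := moment_zero (κ := Fin n × Fin n) (fun m i l => w i m.1 m.2 l)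
    (fun m a b => Ym ω α β a b m.1 m.2) (fun x => by
      rw [Fintype.sum_prod_type]
      refine sum_mul_nonneg (fun j k => ∑ i, ∑ l, x i * x l * w i j k l)
        (fun j k => ∑ a, ∑ b, x a * x b * Ym ω α β a b j k) ?_ (hpos x) ?_
        (Y_nonneg ω α β hα hβ hαβ x)
      · intro j k
        rw [Finset.sum_comm]
        refine Finset.sum_congr rfl fun i _ => Finset.sum_congr rfl fun l _ => ?_
        rw [h.flip l j k i]; ring
      · intro j k
        rw [Ym_expand, Ym_expand, dl_comm j k, MB_comm ω (e j), MB_comm _ (e j)]) (by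
      rw [Fintype.sum_prod_type]
      simp only
      simp_rw [Finset.sum_add_distrib]
      rw [hfirst, hsecond]
      have : 2 * α + 2 * β = 2 := by linarith
      rw [this]
      exact h0) x
  rw [Fintype.sum_prod_type] at hm
  exact hm

private lemma P3_ip {q : ℕ} (y : E n) (φ : Form n (q + 1)) :
    ip (Lw y φ) (Lw y φ) = ((q : ℝ) + 2) *
      (⟪y, y⟫ * ip φ φ - ((q : ℝ) + 1) * ip (φ.curryLeft y) (φ.curryLeft y)) := by
  have h1 : ip φ (⟪y, y⟫ • φ - Lw y (φ.curryLeft y)) =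
      ⟪y, y⟫ * ip φ φ - ip φ (Lw y (φ.curryLeft y)) := by
    rw [← ipB_apply, map_sub, map_smul, ipB_apply, ipB_apply, smul_eq_mul]
  rw [adj, car, h1, ip_comm φ (Lw y (φ.curryLeft y)), adj]
  push_cast
  ring

theorem K1 {q : ℕ} (W : CurvTensor n) (hpos : ∀ x y : E n, 0 ≤ W.toFun x y y x)
    (ω : Form n (q + 2))
    (h0 : 3 * (((q : ℝ) + 1) * QA W.comp ω)
      = scalA W.comp * ip ω ω + (1 - (q : ℝ)) * rA W.comp ω) (x v : E n) :
    Lw (jac W x v) (ω.curryLeft x) = 0 := by
  have hxv : (vec (fun i => x i) : E n) = x := rfl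
  -- components of the Jacobi form
  have hA : ∀ (x : E n) (j k : Fin n),
      ∑ i, ∑ l, x i * x l * W.comp i j k l = JF W x (e j) (e k) := by
    intro x j k
    have h1 : W.toFun x (e j) (e k) x = ∑ i, x i * W.toFun (e i) (e j) (e k) x :=
      CurvTensor.lin_sum (W.L1 (e j) (e k) x) x
    rw [JF_apply, h1]
    refine Finset.sum_congr rfl fun i _ => ?_
    have h2 : W.toFun (e i) (e j) (e k) x = ∑ l, x l * W.toFun (e i) (e j) (e k) (e l) :=
      CurvTensor.lin_sum (W.L4 (e i) (e j) (e k)) x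
    rw [h2, Finset.mul_sum]
    refine Finset.sum_congr rfl fun l _ => ?_
    unfold CurvTensor.comp; ring
  have hposc : ∀ x v : Fin n → ℝ,
      0 ≤ ∑ j, ∑ k, v j * v k * (∑ i, ∑ l, x i * x l * W.comp i j k l) := by
    intro x v
    have h1 := hA (vec x)
    simp only [vec_apply] at h1
    simp_rw [h1]
    have h2 := bilin_expand (JF W (vec x)) (vec v) (vec v)
    simp only [vec_apply] at h2
    rw [← h2]
    exact hpos _ _
  have hc := P3_core_zero W.isCurv hposc ω 1 0 zero_le_one le_rfl (by norm_num) (by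
    linarith) (fun i => x i)
  simp_rw [hA x, Ym_expand, hxv] at hc
  set Y1 : E n →ₗ[ℝ] E n →ₗ[ℝ] ℝ :=
    MB ω x x • gB n - ((q : ℝ) + 1) • MB (ω.curryLeft x) with hY1
  have hY1a : ∀ v u, Y1 v u = MB ω x x * ⟪v, u⟫ - ((q : ℝ) + 1) * MB (ω.curryLeft x) v u :=
    fun v u => rfl
  have hY1s : ∀ v u, Y1 v u = Y1 u v := by
    intro v u
    rw [hY1a, hY1a, MB_comm _ v u, real_inner_comm]
  have hY1p : ∀ v, 0 ≤ Y1 v v := fun v => by
    rw [hY1a]
    exact Y1_nonneg ω x v
  have hJp : ∀ v, 0 ≤ JF W x v v := fun v => hpos x v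
  have hdl : ∀ j k : Fin n, ⟪(e j : E n), e k⟫ = dl j k := by
    intro j k
    simp [e, EuclideanSpace.inner_single_left, dl]
  have z1 : ∑ j, ∑ k, JF W x (e j) (e k) * Y1 (e j) (e k) = 0 := by
    rw [← hc]
    refine Finset.sum_congr rfl fun j _ => Finset.sum_congr rfl fun k _ => ?_
    rw [hY1a, hdl]
    ring
  have f1 := psd_prod (JF W x) Y1 (JF_symm W x) hJp hY1s hY1p z1 v (jac W x v)
  rw [← jac_eq, hY1a] at f1
  by_contra hne
  have h3 := CurvTensor.ip_pos (Lw (jac W x v) (ω.curryLeft x)) hne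
  rw [P3_ip] at h3
  have e1 : ip (ω.curryLeft x) (ω.curryLeft x) = MB ω x x := rfl
  have e2 : ip ((ω.curryLeft x).curryLeft (jac W x v)) ((ω.curryLeft x).curryLeft (jac W x v))
      = MB (ω.curryLeft x) (jac W x v) (jac W x v) := rfl
  rw [e1, e2, mul_comm ⟪jac W x v, jac W x v⟫, f1, mul_zero] at h3
  exact lt_irrefl _ h3

end Pool.Agent.H91.AR
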