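import Pool.Agent.H91.AR.Defs

/-! # AR, piece P6b: stepA2 -/

set_option autoImplicit false

namespace Pool.Agent.H91.AR

open Pool.Agent.H61.YP Pool.Agent.H8.RG Pool.Agent.H91.OC Pool.Agent.H91.OR Pool.Agent.H91.SX
  Pool.Agent.H21.OS
open scoped BigOperators RealInnerProductSpace

variable {n : ℕ}

private theorem P6b_neg_self {p : ℕ} {α : Form n p} (h : α = -α) : α = 0 := by
  ext v
  have h1 := congrArg (fun F : Form n p => F v) h
  simp only [AlternatingMap.neg_apply] at h1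
  rw [AlternatingMap.zero_apply]
  linarith

private theorem P6b_Lw_self {p : ℕ} (x : E n) (α : Form n p) : Lw x (Lw x α) = 0 :=
  P6b_neg_self (Lw_anti x x α)

private theorem P6b_curry_self {p : ℕ} (x : E n) (ω : Form n (p + 2)) :
    (ω.curryLeft x).curryLeft x = 0 :=
  P6b_neg_self (curry_swap' ω x x)

theorem stepA2 {q : ℕ} (ω : Form n (q + 2)) (x b1 b2 : E n) (h1 : ‖b1‖ = 1) (h2 : ‖b2‖ = 1)
    (h12 : ⟪b1, b2⟫ = 0) (f1 : (Lw b1 ω).curryLeft b2 = 0) (f2 : (Lw b2 ω).curryLeft b1 = 0)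
    (f3 : Lw b2 (ω.curryLeft x) = 0) (hne : Lw b1 ω ≠ 0) :
    ∃ z : E n, ∀ (t : ℝ) (y : E n), t ≠ 0 → Lw y (ω.curryLeft (x + t • z)) = 0 →
      ⟪y, b1⟫ = 0 := by
  have i1 : ⟪b1, b1⟫ = (1 : ℝ) := by rw [real_inner_self_eq_norm_sq, h1]; norm_num
  have i2 : ⟪b2, b2⟫ = (1 : ℝ) := by rw [real_inner_self_eq_norm_sq, h2]; norm_num
  have h21 : ⟪b2, b1⟫ = 0 := by rw [real_inner_comm]; exact h12
  obtain ⟨ω0, hω0⟩ : ∃ ω0 : Form n (q + 2), ω0 = (Lw b1 ω).curryLeft b1 := ⟨_, rfl⟩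
  have a1 : ω = ω0 + Lw b1 (ω.curryLeft b1) := by
    rw [hω0, car, i1, one_smul]
    abel
  have a2 : ω0 ≠ 0 := by
    intro h0
    apply hne
    rw [a1, h0, zero_add, P6b_Lw_self]
  have a3 : ω0.curryLeft b1 = 0 := by rw [hω0]; exact P6b_curry_self b1 _
  have a4 : ω0.curryLeft b2 = 0 := by
    rw [hω0, curry_swap', f1, curry_zero, neg_zero]
  have a5 : Lw b2 (ω.curryLeft b1) = 0 := by
    rw [car, h21, zero_smul, zero_sub, neg_eq_zero] at f2
    exact f2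
  obtain ⟨z0, hz0⟩ : ∃ z0, ω0.curryLeft z0 ≠ 0 := by
    by_contra hcon
    push Not at hcon
    exact a2 (form_zero ω0 hcon)
  obtain ⟨z, hz⟩ : ∃ z : E n, z = z0 - (⟪z0, b1⟫ : ℝ) • b1 - (⟪z0, b2⟫ : ℝ) • b2 := ⟨_, rfl⟩
  have z1 : ⟪b1, z⟫ = 0 := by
    rw [hz, inner_sub_right, inner_sub_right, real_inner_smul_right, real_inner_smul_right, i1, h12,
      real_inner_comm]
    ring
  have z2 : ⟪b2, z⟫ = 0 := by
    rw [hz, inner_sub_right, inner_sub_right, real_inner_smul_right, real_inner_smul_right, i2, h21,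
      real_inner_comm]
    ring
  obtain ⟨ψ, hψ⟩ : ∃ ψ : Form n (q + 1), ψ = ω0.curryLeft z := ⟨_, rfl⟩
  have p0 : ψ ≠ 0 := by
    rw [hψ, hz, map_sub, map_sub, map_smul, map_smul, a3, a4, smul_zero, smul_zero, sub_zero,
      sub_zero]
    exact hz0
  have p1 : ψ.curryLeft b1 = 0 := by
    rw [hψ, curry_swap', a3, curry_zero, neg_zero]
  have p2 : ψ.curryLeft b2 = 0 := by
    rw [hψ, curry_swap', a4, curry_zero, neg_zero]
  have c1 : Lw b2 ((ω.curryLeft b1).curryLeft z) = 0 := by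
    have h3 := car b2 z (ω.curryLeft b1)
    rw [a5, curry_zero, z2, zero_smul, zero_sub] at h3
    exact neg_eq_zero.1 h3.symm
  have c2 : ω.curryLeft z = ψ - Lw b1 ((ω.curryLeft b1).curryLeft z) := by
    have h3 : ω.curryLeft z = (ω0 + Lw b1 (ω.curryLeft b1)).curryLeft z := by rw [← a1]
    rw [h3, curry_add, ← hψ, car, z1, zero_smul, zero_sub, sub_eq_add_neg]
  have c3 : Lw b2 (ω.curryLeft z) = Lw b2 ψ := by
    rw [c2, Lw_sub, Lw_anti b2 b1, c1, Lw_zero, neg_zero, sub_zero]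
  refine ⟨z, fun t y ht hy => ?_⟩
  have d1 : Lw y (Lw b2 (ω.curryLeft (x + t • z))) = 0 := by
    rw [Lw_anti, hy, Lw_zero, neg_zero]
  rw [map_add, map_smul, Lw_add, Lw_smul, f3, zero_add, c3, Lw_smul] at d1
  have d2 : Lw y (Lw b2 ψ) = 0 := (smul_eq_zero.1 d1).resolve_left ht
  have d3 : (Lw b2 ψ).curryLeft b1 = 0 := by
    rw [car, h21, zero_smul, p1, Lw_zero, sub_zero]
  have d4 : (Lw b2 ψ).curryLeft b2 = ψ := by
    rw [car, i2, one_smul, p2, Lw_zero, sub_zero]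
  have d5 : (⟪y, b1⟫ : ℝ) • Lw b2 ψ = 0 := by
    have h3 := car y b1 (Lw b2 ψ)
    rw [d2, curry_zero, d3, Lw_zero, sub_zero] at h3
    exact h3.symm
  have d6 : (⟪y, b1⟫ : ℝ) • ψ = 0 := by
    have h3 : ((⟪y, b1⟫ : ℝ) • Lw b2 ψ).curryLeft b2 = (0 : Form n (q + 2)).curryLeft b2 := by
      rw [d5]
    rw [curry_smul, d4, curry_zero] at h3
    exact h3
  exact (smul_eq_zero.1 d6).resolve_right p0

end Pool.Agent.H91.AR
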