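import Pool.Agent.H91.AR.P6a
import Pool.Agent.H91.AR.P6b
import Pool.Agent.H8.RG.Lin

set_option autoImplicit false

/-!
# Step A: two positive eigenvalues of a Jacobi operator
-/

namespace Pool.Agent.H91.AR

open Pool.Agent.H61.YP Pool.Agent.H8.RG Pool.Agent.H91.OC Pool.Agent.H91.OR Pool.Agent.H91.SX
  Pool.Agent.H21.OS
open scoped BigOperators RealInnerProductSpace

variable {n : ℕ}

theorem stepA {q : ℕ} (W : CurvTensor n) (hpos : ∀ x y : E n, 0 ≤ W.toFun x y y x)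
    (ω : Form n (q + 2)) (h : ∀ x v : E n, Lw (jac W x v) (ω.curryLeft x) = 0) (x b1 b2 : E n)
    (h1 : ‖b1‖ = 1) (h2 : ‖b2‖ = 1) (h12 : ⟪b1, b2⟫ = 0) (μ1 μ2 : ℝ) (hμ1 : 0 < μ1)
    (hμ2 : 0 < μ2) (e1 : jac W x b1 = μ1 • b1) (e2 : jac W x b2 = μ2 • b2) :
    Lw b1 ω = 0 := by
  by_contra hne
  have f3 : Lw b2 (ω.curryLeft x) = 0 := by
    have h3 := h x b2
    rw [e2, Lw_smul_left] at h3
    exact (smul_eq_zero.1 h3).resolve_left hμ2.ne'
  obtain ⟨z, hz⟩ := stepA2 ω x b1 b2 h1 h2 h12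
    (stepA1 W hpos ω h x b1 b2 h1 h12 μ1 μ2 hμ1 hμ2 e1 e2)
    (stepA1 W hpos ω h x b2 b1 h2 (by rw [real_inner_comm]; exact h12) μ2 μ1 hμ2 hμ1 e2 e1)
    f3 hne
  have h3 : ∀ t : ℝ, t ≠ 0 → W.toFun (x + t • z) b1 b1 (x + t • z) = 0 := by
    intro t ht
    have h4 := hz t (jac W (x + t • z) b1) ht (h _ _)
    rwa [inner_jac] at h4
  have k1 := h3 1 (by norm_num)
  have k2 := h3 (-1) (by norm_num)
  have k3 := h3 2 (by norm_num)
  rw [Lin_expand] at k1 k2 k3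
  have k0 : W.toFun x b1 b1 x = 0 := by linarith
  rw [← inner_jac, e1, real_inner_smul_left, real_inner_self_eq_norm_sq, h1] at k0
  linarith

end Pool.Agent.H91.AR
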