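import Pool.Agent.H91.AR.Defs

set_option autoImplicit false

/-!
# Project AR, piece P7: the spectral theorem and the minor lemma
-/

namespace Pool.Agent.H91.AR

open Pool.Agent.H61.YP Pool.Agent.H8.RG Pool.Agent.H91.OC Pool.Agent.H21.OS
open scoped BigOperators RealInnerProductSpace

variable {n : ℕ}

theorem spectral (A : E n →ₗ[ℝ] E n) (hA : ∀ x y : E n, ⟪A x, y⟫ = ⟪x, A y⟫) :
    ∃ (b : Fin n → E n) (lam : Fin n → ℝ), (∀ i, ‖b i‖ = 1) ∧ (∀ i j, i ≠ j → ⟪b i, b j⟫ = 0) ∧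
      (∀ i, A (b i) = lam i • b i) ∧ (∀ v : E n, v = ∑ i, ⟪b i, v⟫ • b i) := by
  have hS : LinearMap.IsSymmetric A := fun x y => hA x y
  have hn : Module.finrank ℝ (E n) = n := finrank_euclideanSpace_fin
  refine ⟨fun i => hS.eigenvectorBasis hn i, fun i => hS.eigenvalues hn i, fun i => ?_,
    fun i j hij => ?_, fun i => ?_, fun v => ?_⟩
  · exact (hS.eigenvectorBasis hn).orthonormal.1 i
  · exact (hS.eigenvectorBasis hn).orthonormal.2 hij
  · exact hS.apply_eigenvectorBasis hn i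
  · exact ((hS.eigenvectorBasis hn).sum_repr' v).symm

theorem minor_lemma {p : ℕ} (A : E n →ₗ[ℝ] E n) (hA : ∀ x y : E n, ⟪A x, y⟫ = ⟪x, A y⟫)
    (hp : ∀ x : E n, 0 ≤ ⟪A x, x⟫) (ω : Form n p) (y z : E n)
    (hm : ⟪A y, y⟫ * ⟪A z, z⟫ ≠ ⟪A y, z⟫ ^ 2)
    (h : ∀ (b1 b2 : E n) (μ1 μ2 : ℝ), ‖b1‖ = 1 → ‖b2‖ = 1 → ⟪b1, b2⟫ = 0 → 0 < μ1 → 0 < μ2 →
      A b1 = μ1 • b1 → A b2 = μ2 • b2 → Lw b1 ω = 0) (v : E n) : Lw (A v) ω = 0 := by
  obtain ⟨b, lam, hb1, hb2, hb3, hb4⟩ := spectral A hA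
  have hnn : ∀ i, 0 ≤ lam i := by
    intro i
    have h1 := hp (b i)
    rw [hb3, real_inner_smul_left, real_inner_self_eq_norm_sq, hb1, one_pow, mul_one] at h1
    exact h1
  have hAv : ∀ u : E n, A u = ∑ i, (lam i * ⟪b i, u⟫) • b i := by
    intro u
    have h1 : A u = A (∑ i, ⟪b i, u⟫ • b i) := by rw [← hb4 u]
    rw [h1, map_sum]
    refine Finset.sum_congr rfl fun i _ => ?_
    rw [map_smul, hb3, smul_smul, mul_comm]
  have hAi : ∀ u w : E n, ⟪A u, w⟫ = ∑ i, lam i * ⟪b i, u⟫ * ⟪b i, w⟫ := by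
    intro u w
    rw [hAv, sum_inner]
    exact Finset.sum_congr rfl fun i _ => real_inner_smul_left _ _ _
  have hex : ∃ k l, k ≠ l ∧ 0 < lam k ∧ 0 < lam l := by
    by_contra hcon
    push Not at hcon
    apply hm
    by_cases hk : ∃ k, 0 < lam k
    · obtain ⟨k, hk⟩ := hk
      have h0 : ∀ i, i ≠ k → lam i = 0 := fun i hi => le_antisymm (hcon k i (Ne.symm hi) hk) (hnn i)
      have h1 : ∀ u w : E n, ⟪A u, w⟫ = lam k * ⟪b k, u⟫ * ⟪b k, w⟫ := by
        intro u w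
        rw [hAi, Finset.sum_eq_single k]
        · intro i _ hi
          rw [h0 i hi, zero_mul, zero_mul]
        · intro hk'
          exact absurd (Finset.mem_univ k) hk'
      rw [h1, h1, h1]
      ring
    · push Not at hk
      have h1 : ∀ u w : E n, ⟪A u, w⟫ = 0 := by
        intro u w
        rw [hAi]
        refine Finset.sum_eq_zero fun i _ => ?_
        rw [le_antisymm (hk i) (hnn i), zero_mul, zero_mul]
      rw [h1, h1, h1]
      ring
  obtain ⟨k, l, hkl, hk, hl⟩ := hex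
  have hb : ∀ i, lam i = 0 ∨ Lw (b i) ω = 0 := by
    intro i
    rcases (hnn i).eq_or_lt with h1 | h1
    · exact Or.inl h1.symm
    · right
      by_cases hik : i = k
      · subst hik
        exact h (b i) (b l) (lam i) (lam l) (hb1 i) (hb1 l) (hb2 i l hkl) hk hl (hb3 i) (hb3 l)
      · exact h (b i) (b k) (lam i) (lam k) (hb1 i) (hb1 k) (hb2 i k hik) h1 hk (hb3 i) (hb3 k)
  rw [hAv, Lw_sum_left]
  refine Finset.sum_eq_zero fun i _ => ?_
  rw [Lw_smul_left]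
  rcases hb i with h1 | h1
  · rw [h1, zero_mul, zero_smul]
  · rw [h1, smul_zero]

end Pool.Agent.H91.AR
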