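import Pool.Agent.H91.AR.Defs

set_option autoImplicit false

/-!
# Project AR, piece P8: the Jacobi operators at all points
-/

namespace Pool.Agent.H91.AR

open Pool.Agent.H61.YP Pool.Agent.H8.RG Pool.Agent.H91.OC Pool.Agent.H91.OR Pool.Agent.H91.SX
  Pool.Agent.H21.OS
open scoped BigOperators RealInnerProductSpace

variable {n : ℕ}

private theorem P8_expand (W : CurvTensor n) (t : ℝ) (x0 x y z : E n) :
    W.toFun (x0 + t • x) y z (x0 + t • x) = W.toFun x0 y z x0 +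
      t * (W.toFun (x0 + x) y z (x0 + x) - W.toFun x0 y z x0 - W.toFun x y z x) +
      t ^ 2 * W.toFun x y z x := by
  have h (s : ℝ) : W.toFun (x0 + s • x) y z (x0 + s • x) = W.toFun x0 y z x0 +
      s * (W.toFun x0 y z x + W.toFun x y z x0) + s ^ 2 * W.toFun x y z x := by
    rw [W.add_left, W.add_four, W.add_four, W.smul_left, W.smul_four, W.smul_left, W.smul_four]
    ring
  have h1 := h 1
  rw [one_smul] at h1
  rw [h t, h1]
  ring

private theorem P8_jac (W : CurvTensor n) (t : ℝ) (x0 x v : E n) :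
    jac W (x0 + t • x) v = jac W x0 v +
      t • (jac W (x0 + x) v - jac W x0 v - jac W x v) + t ^ 2 • jac W x v := by
  refine ext_inner_right ℝ fun u => ?_
  rw [inner_add_left, inner_add_left, real_inner_smul_left, real_inner_smul_left, inner_sub_left,
    inner_sub_left, inner_jac, inner_jac, inner_jac, inner_jac, P8_expand]

theorem stepB {p : ℕ} (W : CurvTensor n) (ω : Form n p) (x0 y0 z0 : E n)
    (hne : W.toFun x0 y0 y0 x0 * W.toFun x0 z0 z0 x0 ≠ W.toFun x0 y0 z0 x0 ^ 2)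
    (h : ∀ x y z : E n, W.toFun x y y x * W.toFun x z z x ≠ W.toFun x y z x ^ 2 →
      ∀ v, Lw (jac W x v) ω = 0) (x v : E n) : Lw (jac W x v) ω = 0 := by
  obtain ⟨m, hm⟩ : ∃ m : ℝ → ℝ, ∀ t, m t =
      W.toFun (x0 + t • x) y0 y0 (x0 + t • x) * W.toFun (x0 + t • x) z0 z0 (x0 + t • x) -
        W.toFun (x0 + t • x) y0 z0 (x0 + t • x) ^ 2 := ⟨_, fun _ => rfl⟩
  have hc : Continuous m := by
    have e : m = fun t : ℝ => (W.toFun x0 y0 y0 x0 +
        t * (W.toFun (x0 + x) y0 y0 (x0 + x) - W.toFun x0 y0 y0 x0 - W.toFun x y0 y0 x) +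
        t ^ 2 * W.toFun x y0 y0 x) * (W.toFun x0 z0 z0 x0 +
        t * (W.toFun (x0 + x) z0 z0 (x0 + x) - W.toFun x0 z0 z0 x0 - W.toFun x z0 z0 x) +
        t ^ 2 * W.toFun x z0 z0 x) - (W.toFun x0 y0 z0 x0 +
        t * (W.toFun (x0 + x) y0 z0 (x0 + x) - W.toFun x0 y0 z0 x0 - W.toFun x y0 z0 x) +
        t ^ 2 * W.toFun x y0 z0 x) ^ 2 := by
      funext t
      rw [hm t, P8_expand, P8_expand, P8_expand]
    rw [e]
    fun_prop
  have h0 : m 0 ≠ 0 := by
    rw [hm 0, zero_smul, add_zero]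
    exact sub_ne_zero.2 hne
  obtain ⟨δ, hδ, hb⟩ := Metric.eventually_nhds_iff.1 (hc.continuousAt.eventually_ne h0)
  have key : ∀ t : ℝ, |t| < δ → Lw (jac W (x0 + t • x) v) ω = 0 := by
    intro t ht
    refine h (x0 + t • x) y0 z0 ?_ v
    have h1 := hb (y := t) (by rw [Real.dist_eq, sub_zero]; exact ht)
    rw [hm t] at h1
    exact sub_ne_zero.1 h1
  have ex : ∀ t : ℝ, |t| < δ → Lw (jac W x0 v) ω +
      Lw (t • (jac W (x0 + x) v - jac W x0 v - jac W x v)) ω + t ^ 2 • Lw (jac W x v) ω = 0 := by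
    intro t ht
    rw [← key t ht, P8_jac W t x0 x v, Lw_add_left, Lw_add_left, ← Lw_smul_left]
  have e0 := ex 0 (by rw [abs_zero]; exact hδ)
  rw [zero_smul, Lw_zero_left, add_zero, zero_pow two_ne_zero, zero_smul, add_zero] at e0
  have e1 := ex (δ / 2) (by rw [abs_of_pos (half_pos hδ)]; exact half_lt_self hδ)
  have e2 := ex (-(δ / 2)) (by rw [abs_neg, abs_of_pos (half_pos hδ)]; exact half_lt_self hδ)
  rw [e0, zero_add] at e1 e2
  rw [neg_smul, Lw_neg_left, neg_sq] at e2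
  have e3 : (2 * (δ / 2) ^ 2) • Lw (jac W x v) ω = 0 := by
    rw [mul_smul, two_smul]
    calc _ = (Lw ((δ / 2) • (jac W (x0 + x) v - jac W x0 v - jac W x v)) ω +
          (δ / 2) ^ 2 • Lw (jac W x v) ω) +
        (-Lw ((δ / 2) • (jac W (x0 + x) v - jac W x0 v - jac W x v)) ω +
          (δ / 2) ^ 2 • Lw (jac W x v) ω) := by abel
      _ = 0 := by rw [e1, e2, add_zero]
  exact (smul_eq_zero.1 e3).resolve_left (by positivity)

end Pool.Agent.H91.AR
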