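import Pool.Agent.H91.AR.Defs

set_option autoImplicit false

/-!
# Project AR, piece P9a: stepC4
-/

namespace Pool.Agent.H91.AR

open Pool.Agent.H61.YP Pool.Agent.H8.RG Pool.Agent.H91.OC Pool.Agent.H91.OR Pool.Agent.H91.SX
  Pool.Agent.H21.OS
open scoped BigOperators RealInnerProductSpace

variable {n : ℕ}

private theorem P9a_DA_Lw {p : ℕ} (A : E n →ₗ[ℝ] E n) (v : E n) (ω : Form n (p + 1)) :
    DA A (Lw v ω) = Lw (A v) ω + Lw v (DA A ω) := by
  have h1 : ∀ i : Fin n, Lw (A (e i)) ((Lw v ω).curryLeft (e i)) =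
      Lw (A (⟪v, (e i : E n)⟫ • (e i : E n))) ω + Lw v (Lw (A (e i)) (ω.curryLeft (e i))) := by
    intro i
    rw [car, Lw_sub, Lw_smul, Lw_anti, sub_neg_eq_add, map_smul, Lw_smul_left]
  unfold DA
  rw [Finset.sum_congr rfl fun i _ => h1 i, Finset.sum_add_distrib, ← Lw_sum_left, ← map_sum,
    sum_inner_smul, ← Lw_sum]

private theorem P9a_DA_curry {p : ℕ} (A : E n →ₗ[ℝ] E n)
    (hA : ∀ x y : E n, ⟪A x, y⟫ = ⟪x, A y⟫) (ω : Form n (p + 2)) (x : E n) :
    DA A (ω.curryLeft x) = (DA A ω).curryLeft x - ω.curryLeft (A x) := by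
  have h1 : ∀ i : Fin n, (Lw (A (e i)) (ω.curryLeft (e i))).curryLeft x =
      ω.curryLeft (⟪A x, (e i : E n)⟫ • (e i : E n)) +
        Lw (A (e i)) ((ω.curryLeft x).curryLeft (e i)) := by
    intro i
    rw [car, curry_swap' ω (e i) x, Lw_neg, sub_neg_eq_add, map_smul, hA, real_inner_comm]
  unfold DA
  rw [curry_sum', Finset.sum_congr rfl fun i _ => h1 i, Finset.sum_add_distrib, ← map_sum,
    sum_inner_smul, add_sub_cancel_left]

theorem stepC4 {q : ℕ} (T : E n →ₗ[ℝ] E n) (hT : ∀ x y : E n, ⟪T x, y⟫ = -⟪x, T y⟫)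
    (ω : Form n (q + 2)) (c : ℝ) (h1 : ∀ x, Lw (T x) (ω.curryLeft x) = 0)
    (h0 : DA (-(T ∘ₗ T)) ω = c • ω) (x y : E n) :
    Lw (T (T (T x))) (ω.curryLeft y) = Lw (T x) (ω.curryLeft (T (T y))) := by
  have hG : ∀ x y : E n, ⟪(-(T ∘ₗ T)) x, y⟫ = ⟪x, (-(T ∘ₗ T)) y⟫ := by
    intro x y
    simp only [LinearMap.neg_apply, LinearMap.comp_apply, inner_neg_left, inner_neg_right, hT,
      neg_neg]
  have K : ∀ x y : E n, Lw (T x) (ω.curryLeft y) = -Lw (T y) (ω.curryLeft x) := by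
    intro x y
    have h := h1 (x + y)
    rw [map_add, Lw_add_left, map_add, Lw_add, Lw_add, h1 x, h1 y, zero_add, add_zero] at h
    exact eq_neg_of_add_eq_zero_left h
  have hx : ∀ x : E n, Lw (T (T (T x))) (ω.curryLeft x) = 0 := by
    intro x
    have h2 := P9a_DA_Lw (-(T ∘ₗ T)) (T x) (ω.curryLeft x)
    have h3 : DA (-(T ∘ₗ T)) (Lw (T x) (ω.curryLeft x)) = 0 := by
      rw [h1 x]
      unfold DA
      exact Finset.sum_eq_zero fun i _ => by rw [curry_zero, Lw_zero]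
    rw [h3, P9a_DA_curry _ hG, h0, curry_smul, Lw_sub, Lw_smul, h1 x, smul_zero, zero_sub] at h2
    simp only [LinearMap.neg_apply, LinearMap.comp_apply] at h2
    rw [Lw_neg_left, map_neg, Lw_neg, neg_neg, K x (T (T x))] at h2
    have h4 : (-2 : ℝ) • Lw (T (T (T x))) (ω.curryLeft x) = 0 := by
      rw [h2]
      module
    exact (smul_eq_zero.1 h4).resolve_left (by norm_num)
  have K3 : Lw (T (T (T x))) (ω.curryLeft y) = -Lw (T (T (T y))) (ω.curryLeft x) := by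
    have h := hx (x + y)
    rw [map_add, map_add, map_add, Lw_add_left, map_add, Lw_add, Lw_add, hx x, hx y, zero_add,
      add_zero] at h
    exact eq_neg_of_add_eq_zero_left h
  rw [K3, K x (T (T y))]

end Pool.Agent.H91.AR
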