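import Pool.Agent.H91.AR.Defs

/-!
# Project AR, piece P1
-/

set_option autoImplicit false

namespace Pool.Agent.H91.AR

open Pool.Agent.H61.YP Pool.Agent.H8.RG Pool.Agent.H91.OC Pool.Agent.H91.OR Pool.Agent.H91.SX
  Pool.Agent.H21.OS
open scoped BigOperators RealInnerProductSpace

variable {n : ℕ}

private theorem P1_sumA (A : E n →ₗ[ℝ] E n) (v : E n) :
    ∑ i, ⟪v, (e i : E n)⟫ • A (e i) = A v := by
  conv_rhs => rw [← sum_inner_smul v, map_sum]
  exact Finset.sum_congr rfl fun i _ => (map_smul A _ _).symm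

private theorem P1_lw {p : ℕ} (A : E n →ₗ[ℝ] E n) (v : E n) (α : Form n p) :
    ∑ i, ⟪v, (e i : E n)⟫ • Lw (A (e i)) α = Lw (A v) α := by
  rw [← P1_sumA A v, Lw_sum_left]
  exact Finset.sum_congr rfl fun i _ => (Lw_smul_left _ _ _).symm

private theorem P1_cur {p : ℕ} (ω : Form n (p + 1)) (v : E n) :
    ∑ i, ⟪v, (e i : E n)⟫ • ω.curryLeft (e i) = ω.curryLeft v := by
  conv_rhs => rw [← sum_inner_smul v, map_sum]
  exact Finset.sum_congr rfl fun i _ => (map_smul ω.curryLeft _ _).symm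

theorem DA_Lw {p : ℕ} (A : E n →ₗ[ℝ] E n) (v : E n) (ω : Form n (p + 1)) :
    DA A (Lw v ω) = Lw (A v) ω + Lw v (DA A ω) := by
  unfold DA
  rw [Lw_sum, ← P1_lw A v ω, ← Finset.sum_add_distrib]
  refine Finset.sum_congr rfl fun i _ => ?_
  rw [car, Lw_sub, Lw_smul, Lw_anti, sub_neg_eq_add]

theorem DA_curry {p : ℕ} (A : E n →ₗ[ℝ] E n) (hA : ∀ x y : E n, ⟪A x, y⟫ = ⟪x, A y⟫)
    (ω : Form n (p + 2)) (x : E n) :
    DA A (ω.curryLeft x) = (DA A ω).curryLeft x - ω.curryLeft (A x) := by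
  unfold DA
  rw [curry_sum', ← P1_cur ω (A x), ← Finset.sum_sub_distrib]
  refine Finset.sum_congr rfl fun i _ => ?_
  rw [car, hA, real_inner_comm (A x) (e i), curry_swap' ω x (e i), Lw_neg]
  abel

theorem DA_one {p : ℕ} (ω : Form n (p + 1)) :
    ∑ i, Lw (e i) (ω.curryLeft (e i)) = ((p : ℝ) + 1) • ω := by
  induction p with
  | zero =>
    rw [← sub_eq_zero]
    apply form_zero
    intro z
    rw [curry_sub, curry_sum', curry_smul]
    have h : ∀ i, (Lw (e i) (ω.curryLeft (e i))).curryLeft z = ⟪z, (e i : E n)⟫ • ω.curryLeft (e i) :=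
      fun i => by rw [car0, real_inner_comm]
    rw [Finset.sum_congr rfl fun i _ => h i, P1_cur]
    simp
  | succ p ih =>
    rw [← sub_eq_zero]
    apply form_zero
    intro z
    rw [curry_sub, curry_sum', curry_smul]
    have h : ∀ i, (Lw (e i) (ω.curryLeft (e i))).curryLeft z =
        ⟪z, (e i : E n)⟫ • ω.curryLeft (e i) + Lw (e i) ((ω.curryLeft z).curryLeft (e i)) :=
      fun i => by rw [car, real_inner_comm, curry_swap' ω (e i) z, Lw_neg, sub_neg_eq_add]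
    rw [Finset.sum_congr rfl fun i _ => h i, Finset.sum_add_distrib, P1_cur, ih]
    push_cast
    module

theorem DA_flip {p : ℕ} (A : E n →ₗ[ℝ] E n) (hA : ∀ x y : E n, ⟪A x, y⟫ = ⟪x, A y⟫)
    (ω : Form n (p + 1)) : DA A ω = ∑ i, Lw (e i) (ω.curryLeft (A (e i))) := by
  unfold DA
  have h1 : ∀ i, Lw (A (e i)) (ω.curryLeft (e i)) =
      ∑ j, ⟪A (e i), (e j : E n)⟫ • Lw (e j) (ω.curryLeft (e i)) := by
    intro i
    conv_lhs => rw [← sum_inner_smul (A (e i)), Lw_sum_left]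
    exact Finset.sum_congr rfl fun j _ => Lw_smul_left _ _ _
  rw [Finset.sum_congr rfl fun i _ => h1 i, Finset.sum_comm]
  refine Finset.sum_congr rfl fun j _ => ?_
  rw [← P1_cur ω (A (e j)), Lw_sum]
  refine Finset.sum_congr rfl fun i _ => ?_
  rw [Lw_smul, hA, real_inner_comm]

theorem DA_wedge {p : ℕ} (A : E n →ₗ[ℝ] E n) (ω : Form n (p + 1)) (h : ∀ v, Lw (A v) ω = 0) :
    DA A ω = (∑ i, ⟪A (e i), (e i : E n)⟫) • ω := by
  unfold DA
  rw [Finset.sum_smul]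
  refine Finset.sum_congr rfl fun i _ => ?_
  have h1 := car (A (e i)) (e i) ω
  rw [h, curry_zero] at h1
  exact (sub_eq_zero.1 h1.symm).symm

theorem ip_DA {p : ℕ} (A : E n →ₗ[ℝ] E n) (ω η : Form n (p + 1)) :
    ip (DA A ω) η = ((p : ℝ) + 1) * ∑ i, ip (ω.curryLeft (e i)) (η.curryLeft (A (e i))) := by
  unfold DA
  rw [ip_comm, ← ipB_apply, map_sum, Finset.mul_sum]
  refine Finset.sum_congr rfl fun i _ => ?_
  rw [ipB_apply, ip_comm, adj]

end Pool.Agent.H91.AR
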