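import Pool.Agent.H91.AR.P1

set_option autoImplicit false

/-!
# Project AR, P9b: the eigenspaces of the square of a skew map
-/

namespace Pool.Agent.H91.AR

open Pool.Agent.H61.YP Pool.Agent.H8.RG Pool.Agent.H91.OC Pool.Agent.H91.OR Pool.Agent.H91.SX
  Pool.Agent.H21.OS
open scoped BigOperators RealInnerProductSpace

variable {n : ℕ}

private lemma P9b_sub {m : ℕ} (a b : ℝ) (x : Form n m) (h : a • x = b • x) : (a - b) • x = 0 := by
  have h1 : a • x = (a - b) • x + b • x := by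
    rw [← add_smul, sub_add_cancel]
  rw [h1] at h
  exact add_eq_right.1 h

private lemma P9b_pre {q : ℕ} (T : E n →ₗ[ℝ] E n) (ω : Form n (q + 2))
    (h4 : ∀ x y, Lw (T (T (T x))) (ω.curryLeft y) = Lw (T x) (ω.curryLeft (T (T y))))
    (u : E n) (lam : ℝ) (hl : lam ≠ 0) (hu : T (T u) = -(lam • u)) (y : E n) :
    Lw u (ω.curryLeft (T (T y))) = -(lam • Lw u (ω.curryLeft y)) := by
  have hx : T (-(lam⁻¹ • T u)) = u := by
    rw [map_neg, map_smul, hu, smul_neg, neg_neg, smul_smul, inv_mul_cancel₀ hl, one_smul]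
  have h := h4 (-(lam⁻¹ • T u)) y
  rw [hx, hu, Lw_neg_left, Lw_smul_left] at h
  exact h.symm

theorem stepC1 {q : ℕ} (T : E n →ₗ[ℝ] E n) (hT : ∀ x y : E n, ⟪T x, y⟫ = -⟪x, T y⟫)
    (ω : Form n (q + 2)) (c : ℝ) (h0 : DA (-(T ∘ₗ T)) ω = c • ω)
    (h4 : ∀ x y, Lw (T (T (T x))) (ω.curryLeft y) = Lw (T x) (ω.curryLeft (T (T y))))
    (u : E n) (lam : ℝ) (hl : lam ≠ 0) (hu : T (T u) = -(lam • u)) :
    (((q : ℝ) + 2) * lam - c) • Lw u ω = 0 := by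
  have hG : ∀ x : E n, (-(T ∘ₗ T)) x = -T (T x) := fun x => rfl
  have hs : ∀ x y : E n, ⟪(-(T ∘ₗ T)) x, y⟫ = ⟪x, (-(T ∘ₗ T)) y⟫ := by
    intro x y
    rw [hG, hG, inner_neg_left, inner_neg_right, hT, hT, neg_neg]
  have hk : ∀ y : E n, (Lw u ω).curryLeft ((-(T ∘ₗ T)) y) = lam • (Lw u ω).curryLeft y := by
    intro y
    have e1 : ⟪u, (-(T ∘ₗ T)) y⟫ = lam * ⟪u, y⟫ := by
      rw [← hs, hG, hu, neg_neg, real_inner_smul_left]
    have e2 : ω.curryLeft ((-(T ∘ₗ T)) y) = -ω.curryLeft (T (T y)) := by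
      rw [hG, map_neg]
    rw [car, car, e1, e2, Lw_neg, P9b_pre T ω h4 u lam hl hu y, neg_neg, smul_sub, smul_smul]
  have h1 : DA (-(T ∘ₗ T)) (Lw u ω) = (lam * ((q : ℝ) + 3)) • Lw u ω := by
    rw [DA_flip _ hs]
    have : ∀ i : Fin n, Lw (e i) ((Lw u ω).curryLeft ((-(T ∘ₗ T)) (e i))) =
        lam • Lw (e i) ((Lw u ω).curryLeft (e i)) := by
      intro i
      rw [hk, Lw_smul]
    rw [Finset.sum_congr rfl fun i _ => this i, ← Finset.smul_sum, DA_one, smul_smul]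
    congr 1
    push_cast
    ring
  have h2 : DA (-(T ∘ₗ T)) (Lw u ω) = (lam + c) • Lw u ω := by
    rw [DA_Lw, h0, Lw_smul, hG, hu, neg_neg, Lw_smul_left, add_smul]
  have h3 := P9b_sub _ _ _ (h1.symm.trans h2)
  have h4' : ((q : ℝ) + 2) * lam - c = lam * ((q : ℝ) + 3) - (lam + c) := by ring
  rw [h4']
  exact h3

theorem stepC2 {q : ℕ} (T : E n →ₗ[ℝ] E n)
    (ω : Form n (q + 2))
    (h4 : ∀ x y, Lw (T (T (T x))) (ω.curryLeft y) = Lw (T x) (ω.curryLeft (T (T y))))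
    (u u' : E n) (hu1 : ‖u'‖ = 1) (lam lam' : ℝ) (hl : lam ≠ 0)
    (hll : lam ≠ lam') (hu : T (T u) = -(lam • u)) (hu' : T (T u') = -(lam' • u'))
    (hz : Lw u' ω = 0) : Lw u ω = 0 := by
  have h1 := P9b_pre T ω h4 u lam hl hu u'
  have e1 : ω.curryLeft (-(lam' • u')) = -(lam' • ω.curryLeft u') := by
    rw [map_neg, map_smul]
  rw [hu', e1, Lw_neg, Lw_smul, neg_inj] at h1
  have h2 := P9b_sub _ _ _ h1
  have h3 : Lw u (ω.curryLeft u') = 0 :=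
    (smul_eq_zero.1 h2).resolve_left (sub_ne_zero.2 (Ne.symm hll))
  have h5 := car u' u' ω
  rw [hz, curry_zero, real_inner_self_eq_norm_sq, hu1, one_pow, one_smul] at h5
  have h6 : ω = Lw u' (ω.curryLeft u') := (sub_eq_zero.1 h5.symm)
  rw [h6, Lw_anti, h3, Lw_zero, neg_zero]

end Pool.Agent.H91.AR
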