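import Pool.Agent.H91.AR.Defs
import Pool.Agent.H91.AR.P1
import Pool.Agent.H91.AR.P7
import Pool.Agent.H91.AR.P9b

set_option autoImplicit false

namespace Pool.Agent.H91.AR

open Pool.Agent.H61.YP Pool.Agent.H8.RG Pool.Agent.H91.OC Pool.Agent.H91.OR Pool.Agent.H91.SX
  Pool.Agent.H21.OS
open scoped BigOperators RealInnerProductSpace

variable {n : ℕ}

theorem stepC {q : ℕ} (T : E n →ₗ[ℝ] E n) (hT : ∀ x y : E n, ⟪T x, y⟫ = -⟪x, T y⟫)
    (ω : Form n (q + 2)) (hω : ω ≠ 0) (c : ℝ)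
    (h4 : ∀ x y, Lw (T (T (T x))) (ω.curryLeft y) = Lw (T x) (ω.curryLeft (T (T y))))
    (h0 : DA (-(T ∘ₗ T)) ω = c • ω)
    (hc : c ≠ -∑ i, ⟪T (T (e i)), (e i : E n)⟫) (x : E n) :
    ((q : ℝ) + 2) • T (T (T x)) = -(c • T x) := by
  have hGa : ∀ v, (-(T ∘ₗ T) : E n →ₗ[ℝ] E n) v = -(T (T v)) := fun v => rfl
  have hGs : ∀ x y : E n, ⟪(-(T ∘ₗ T) : E n →ₗ[ℝ] E n) x, y⟫ =
      ⟪x, (-(T ∘ₗ T) : E n →ₗ[ℝ] E n) y⟫ := by
    intro x y
    rw [hGa, hGa, inner_neg_left, inner_neg_right, hT (T x) y, hT x (T y), neg_neg]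
  obtain ⟨b, lam, hb1, hb2, hb3, hb4⟩ := spectral (-(T ∘ₗ T)) hGs
  have hbT : ∀ i, T (T (b i)) = -(lam i • b i) := by
    intro i
    rw [← hb3 i, hGa, neg_neg]
  have hex : ∃ i0, lam i0 ≠ 0 ∧ Lw (b i0) ω ≠ 0 := by
    by_contra hcon
    have hall : ∀ i, lam i ≠ 0 → Lw (b i) ω = 0 := fun i hi => by
      by_contra h1
      exact hcon ⟨i, hi, h1⟩
    have hz : ∀ v, Lw ((-(T ∘ₗ T) : E n →ₗ[ℝ] E n) v) ω = 0 := by
      intro v
      rw [hb4 v, map_sum, Lw_sum_left]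
      refine Finset.sum_eq_zero fun i _ => ?_
      rw [map_smul, hb3 i, Lw_smul_left, Lw_smul_left]
      by_cases hi : lam i = 0
      · rw [hi, zero_smul, smul_zero]
      · rw [hall i hi, smul_zero, smul_zero]
    have h1 := DA_wedge (-(T ∘ₗ T)) ω hz
    rw [h0] at h1
    have h2 : (c - ∑ i, ⟪(-(T ∘ₗ T) : E n →ₗ[ℝ] E n) (e i), (e i : E n)⟫) • ω = 0 :=
      (sub_smul c _ ω).trans (sub_eq_zero.2 h1)
    rcases smul_eq_zero.1 h2 with h3 | h3
    · refine hc ?_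
      rw [sub_eq_zero.1 h3, ← Finset.sum_neg_distrib]
      refine Finset.sum_congr rfl fun i _ => ?_
      rw [hGa, inner_neg_left]
    · exact hω h3
  obtain ⟨i0, hi0, hne⟩ := hex
  have hc0 : ((q : ℝ) + 2) * lam i0 = c := by
    rcases smul_eq_zero.1 (stepC1 T hT ω c h0 h4 (b i0) (lam i0) hi0 (hbT i0)) with h1 | h1
    · linarith
    · exact absurd h1 hne
  have hq : ((q : ℝ) + 2) ≠ 0 := by positivity
  have hl : ∀ j, ((q : ℝ) + 2) * (lam j * lam j) = c * lam j := by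
    intro j
    by_cases hj : lam j = 0
    · rw [hj, mul_zero, mul_zero, mul_zero]
    · by_cases hj2 : lam i0 = lam j
      · rw [← hc0, hj2]
        ring
      · exfalso
        rcases smul_eq_zero.1 (stepC1 T hT ω c h0 h4 (b j) (lam j) hj (hbT j)) with h1 | h1
        · refine hj2 (mul_left_cancel₀ hq ?_)
          linarith
        · exact hne (stepC2 T ω h4 (b i0) (b j) (hb1 j) (lam i0) (lam j) hi0 hj2 (hbT i0)
            (hbT j) h1)
  have hTT : ∀ v, T (T v) = ∑ i, ⟪b i, v⟫ • -(lam i • b i) := by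
    intro v
    conv_lhs => rw [hb4 v]
    rw [map_sum, map_sum]
    refine Finset.sum_congr rfl fun i _ => ?_
    rw [map_smul, map_smul, hbT i]
  have hTTTT : ∀ v, T (T (T (T v))) = ∑ i, ⟪b i, v⟫ • (lam i * lam i) • b i := by
    intro v
    rw [hTT v, map_sum, map_sum]
    refine Finset.sum_congr rfl fun i _ => ?_
    rw [map_smul, map_smul, map_neg, map_neg, map_smul, map_smul, hbT i, smul_neg (lam i),
      neg_neg, smul_smul (lam i) (lam i)]
  have hw : T (((q : ℝ) + 2) • T (T (T x)) + c • T x) = 0 := by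
    rw [map_add, map_smul, map_smul, hTTTT x, hTT x, Finset.smul_sum, Finset.smul_sum,
      ← Finset.sum_add_distrib]
    refine Finset.sum_eq_zero fun i _ => ?_
    rw [smul_neg, smul_neg, smul_smul, smul_smul, smul_smul, smul_smul, ← sub_eq_add_neg,
      ← sub_smul]
    have h1 : ((q : ℝ) + 2) * ⟪b i, x⟫ * (lam i * lam i) - c * (⟪b i, x⟫ * lam i) = 0 := by
      have h2 := hl i
      linear_combination ⟪b i, x⟫ * h2
    first
      | rw [h1, zero_smul]
      | (refine smul_eq_zero.2 (Or.inl ?_); linear_combination ⟪b i, x⟫ * hl i)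
  have hww : ((q : ℝ) + 2) • T (T (T x)) + c • T x = 0 := by
    have h1 : ((q : ℝ) + 2) • T (T (T x)) + c • T x = T (((q : ℝ) + 2) • T (T x) + c • x) := by
      rw [map_add, map_smul, map_smul]
    have h2 : ⟪T (((q : ℝ) + 2) • T (T x) + c • x), ((q : ℝ) + 2) • T (T (T x)) + c • T x⟫
        = 0 := by
      rw [hT, hw, inner_zero_right, neg_zero]
    rw [← h1] at h2
    exact inner_self_eq_zero.1 h2
  exact eq_neg_of_add_eq_zero_left hww

end Pool.Agent.H91.AR
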