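import Pool.Agent.H91.AR.P1
import Pool.Agent.H91.AR.P2
import Pool.Agent.H91.AR.P3
import Pool.Agent.H91.AR.P6
import Pool.Agent.H91.AR.P7
import Pool.Agent.H91.AR.P8
import Pool.Agent.H91.AR.P9a
import Pool.Agent.H91.AR.P9c
import Pool.Agent.H91.AR.Mod

set_option autoImplicit false

/-!
# Rigidity in even degrees
-/

namespace Pool.Agent.H91.AR

open Pool.Agent.H61.YP Pool.Agent.H8.RG Pool.Agent.H91.OC Pool.Agent.H91.OR Pool.Agent.H91.SX
  Pool.Agent.H21.OS
open scoped BigOperators RealInnerProductSpace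

variable {n : ℕ}

/-- the Jacobi operators have rank at most one -/
theorem rank_one {q : ℕ} (W : CurvTensor n) (hpos : ∀ x y : E n, 0 ≤ W.toFun x y y x)
    (ω : Form n (q + 2)) (hω : ω ≠ 0) (hK : ∀ x v : E n, Lw (jac W x v) (ω.curryLeft x) = 0)
    (c : ℝ) (hD : DA (ricL W) ω = c • ω) (hc : c ≠ scalA W.comp) (x y z : E n) :
    W.toFun x y y x * W.toFun x z z x = W.toFun x y z x ^ 2 := by
  by_contra hne
  have hA : ∀ x : E n, ∀ v v' : E n, ⟪jacL W x v, v'⟫ = ⟪v, jacL W x v'⟫ := by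
    intro x v v'
    rw [jacL_apply, jacL_apply, jac_symm, real_inner_comm]
  have hP : ∀ x : E n, ∀ v : E n, 0 ≤ ⟪jacL W x v, v⟫ := by
    intro x v
    rw [jacL_apply, inner_jac]
    exact hpos x v
  have h1 : ∀ x v : E n, Lw (jac W x v) ω = 0 := by
    intro x' v'
    refine stepB W ω x y z hne (fun x1 y1 z1 hm v => ?_) x' v'
    refine minor_lemma (jacL W x1) (hA x1) (hP x1) ω y1 z1 ?_ ?_ v
    · rw [jacL_apply, jacL_apply, inner_jac, inner_jac, inner_jac]
      exact hm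
    · intro b1 b2 μ1 μ2 g1 g2 g12 hμ1 hμ2 e1 e2
      exact stepA W hpos ω hK x1 b1 b2 g1 g2 g12 μ1 μ2 hμ1 hμ2 e1 e2
  have h2 : ∀ v, Lw (ricL W v) ω = 0 := by
    intro v
    rw [ricL_apply, Lw_sum_left]
    exact Finset.sum_eq_zero fun i _ => h1 _ _
  have h3 := DA_wedge (ricL W) ω h2
  have h4 : ∑ i, ⟪ricL W (e i), (e i : E n)⟫ = scalA W.comp := by
    unfold scalA ricA CurvTensor.comp
    exact Finset.sum_congr rfl fun i _ => inner_ricL W (e i) (e i)
  rw [hD, h4] at h3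
  have h5 : (c - scalA W.comp) • ω = 0 := by
    ext v
    have h6 := congrArg (fun F : Form n (q + 2) => F v) h3
    simp only [AlternatingMap.smul_apply, smul_eq_mul] at h6
    rw [AlternatingMap.smul_apply, smul_eq_mul, sub_mul, h6, sub_self]
    rfl
  rcases smul_eq_zero.1 h5 with h6 | h6
  · exact hc (sub_eq_zero.1 h6)
  · exact hω h6

/-- the skew map -/
theorem exists_T {q : ℕ} (W : CurvTensor n) (hpos : ∀ x y : E n, 0 ≤ W.toFun x y y x)
    (ω : Form n (q + 2)) (hω : ω ≠ 0) (hK : ∀ x v : E n, Lw (jac W x v) (ω.curryLeft x) = 0)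
    (c : ℝ) (hD : DA (ricL W) ω = c • ω) (hc : c ≠ scalA W.comp) :
    ∃ T : E n →ₗ[ℝ] E n, (∀ x y : E n, ⟪T x, y⟫ = -⟪x, T y⟫) ∧
      (∀ x y, W.toFun x y y x = ⟪T x, y⟫ ^ 2) ∧
      (scalA W.comp = -∑ i, ⟪T (T (e i)), (e i : E n)⟫) ∧
      ∀ x, ((q : ℝ) + 2) • T (T (T x)) = -(c • T x) := by
  obtain ⟨T, hT0, hT1⟩ := Lin_rank_one W
    (fun x y z => rank_one W hpos ω hω hK c hD hc x y z) hpos
  have hT : ∀ x y : E n, ⟪T x, y⟫ = -⟪x, T y⟫ := by
    intro x y
    have h1 := hT0 (x + y)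
    rw [map_add, inner_add_left, inner_add_right, inner_add_right, hT0, hT0] at h1
    rw [real_inner_comm (T y) x]
    linarith
  have hjac : ∀ x v : E n, jac W x v = ⟪T x, v⟫ • T x := by
    intro x v
    refine ext_inner_right ℝ fun u => ?_
    rw [inner_jac, real_inner_smul_left]
    have h1 := B_expand W x v u 1
    rw [one_smul, hT1, hT1, hT1, inner_add_right, Lin_symm W x u v] at h1
    linarith
  have hric : ricL W = -(T ∘ₗ T) := by
    refine LinearMap.ext fun x => ?_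
    rw [ricL_apply]
    have h1 : ∀ i : Fin n, jac W (e i) x = -(⟪T x, (e i : E n)⟫ • T (e i)) := by
      intro i
      rw [hjac, hT, neg_smul, real_inner_comm]
    simp_rw [h1]
    rw [Finset.sum_neg_distrib, LinearMap.neg_apply, LinearMap.comp_apply]
    congr 1
    conv_rhs => rw [← sum_inner_smul (T x)]
    rw [map_sum]
    exact Finset.sum_congr rfl fun i _ => (map_smul T _ _).symm
  have hscal : scalA W.comp = -∑ i, ⟪T (T (e i)), (e i : E n)⟫ := by
    have h4 : ∑ i, ⟪ricL W (e i), (e i : E n)⟫ = scalA W.comp := by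
      unfold scalA ricA CurvTensor.comp
      exact Finset.sum_congr rfl fun i _ => inner_ricL W (e i) (e i)
    rw [← h4, hric, ← Finset.sum_neg_distrib]
    refine Finset.sum_congr rfl fun i _ => ?_
    rw [LinearMap.neg_apply, LinearMap.comp_apply, inner_neg_left]
  have h1 : ∀ x, Lw (T x) (ω.curryLeft x) = 0 := by
    intro x
    by_cases h0 : T x = 0
    · rw [h0, Lw_zero_left]
    · have h2 := hK x (T x)
      rw [hjac, Lw_smul_left] at h2
      exact (smul_eq_zero.1 h2).resolve_left (inner_self_ne_zero.2 h0)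
  rw [hric] at hD
  have h4 := fun x y => stepC4 T hT ω c h1 hD x y
  exact ⟨T, hT, hT1, hscal, stepC T hT ω hω c h4 hD (by rw [← hscal]; exact hc)⟩

/-- **Rigidity in even degrees.** -/
theorem rigid_even {n k q b : ℕ} (hn : n = k + q + 2) (hb : Even b) (hb0 : 0 < b)
    (hbk : b ≤ k) (hkb : k ≤ b + 1) (R : CurvTensor n)
    (hR : ∃ x y z u, R.toFun x y z u ≠ 0)
    (hsec : SecGe R (((q : ℝ) + 2) * b / (3 * (((q : ℝ) + 2) * k) * (((q : ℝ) + 2) + b)
      + (n : ℝ) * ((n : ℝ) - 1) * (((q : ℝ) + 2) * b)) * R.scal))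
    (ω : Form n (q + 2)) (hω : ω ≠ 0) (hw : R.weitzForm ω ≤ 0) :
    IsModel R (((q : ℝ) + 2) * b / (((q : ℝ) + 2) * k)) (((q : ℝ) + 2) + b) := by
  obtain ⟨P, hP⟩ : ∃ P : ℝ, P = (q : ℝ) + 2 := ⟨_, rfl⟩
  have hq0 : (0 : ℝ) ≤ q := Nat.cast_nonneg q
  have hP0 : 0 < P := by rw [hP]; linarith
  have hb' : (0 : ℝ) < b := by exact_mod_cast hb0
  have hk0 : 0 < k := lt_of_lt_of_le hb0 hbk
  have hk' : (0 : ℝ) < k := by exact_mod_cast hk0
  have hnr : (n : ℝ) = k + P := by rw [hn, hP]; push_cast; ring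
  have hn1 : (0 : ℝ) < (n : ℝ) - 1 := by
    have : (1 : ℝ) ≤ k := by exact_mod_cast hk0
    rw [hnr, hP]; linarith
  have hn0 : (0 : ℝ) < (n : ℝ) := by linarith
  rw [← hP] at hsec ⊢
  set K : ℝ := P * k with hK
  have hK0 : 0 < K := mul_pos hP0 hk'
  set N : ℝ := (n : ℝ) * ((n : ℝ) - 1) with hN
  have hN0 : 0 < N := mul_pos hn0 hn1
  set m : ℝ := P * b with hm
  have hm0 : 0 < m := mul_pos hP0 hb'
  have hPb : 0 < P + b := by linarith
  set D : ℝ := 3 * K * (P + b) + N * m with hD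
  have hD0 : 0 < D := by positivity
  set κ : ℝ := m / D with hκ
  have hκ0 : 0 < κ := by positivity
  set c : ℝ := κ * R.scal with hc
  have hκN : 1 - κ * N = 3 * K * (P + b) / D := by
    rw [hκ]; field_simp; rw [hD]; ring
  have hκN0 : 0 < 1 - κ * N := by rw [hκN]; positivity
  have hge := scal_ge R c hsec
  have hscal0 : 0 ≤ R.scal := by
    have h1 : 0 ≤ R.scal * (1 - κ * N) := by
      have : R.scal * (1 - κ * N) = R.scal - (n : ℝ) * (n - 1) * c := by
        rw [hc, hN]; ring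
      rw [this]; linarith
    exact nonneg_of_mul_nonneg_left h1 hκN0
  have hext := R.sec_ext c hsec
  have hscal : 0 < R.scal := by
    refine lt_of_le_of_ne hscal0 fun h0 => ?_
    obtain ⟨x, y, z, u, hne⟩ := hR
    refine hne (zero_of_scal R (fun x y => ?_) h0.symm x y z u)
    have := hext x y
    rw [hc, ← h0, mul_zero, zero_mul] at this
    exact this
  set W := resid R c with hWd
  have hWpos : ∀ x y : E n, 0 ≤ W.toFun x y y x := resid_pos R c hext
  have hcomp : W.comp = R.wA c := resid_comp R c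
  have hM := CurvTensor.ip_pos ω hω
  set M : ℝ := ip ω ω with hMd
  set s : ℝ := scalA W.comp with hs
  set r : ℝ := rA W.comp ω with hr
  set Q : ℝ := QA W.comp ω with hQ
  have hsR : s = R.scal - c * N := by
    rw [hs, hcomp, CurvTensor.scalA_wA, ← CurvTensor.scal_eq]
  have hs1 : s = R.scal * (1 - κ * N) := by rw [hsR, hc]; ring
  have hs0 : 0 < s := by rw [hs1]; positivity
  have hcs : 3 * K * (P + b) * c = m * s := by
    rw [hs1, hκN, hc, hκ]
    field_simp
  have hcs' : 3 * (P + b) * k * c = b * s := by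
    have h1 : P * (3 * (P + b) * k * c) = P * (b * s) := by
      have : P * (3 * (P + b) * k * c) = 3 * K * (P + b) * c := by rw [hK]; ring
      rw [this, hcs, hm]; ring
    exact mul_left_cancel₀ hP0.ne' h1
  have hrR : r = rA R.comp ω - c * (((n : ℝ) - 1) * M) := by
    rw [hr, hcomp, CurvTensor.rA_wA]
  have hQR : Q = QA R.comp ω - c * M := by
    rw [hQ, hcomp, CurvTensor.QA_wA]
  have hwR := CurvTensor.weitzForm_comp R ω
  have hw1 : r - ((q : ℝ) + 1) * Q + c * k * M ≤ 0 := by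
    rw [hwR] at hw
    have h1 : rA R.comp ω - ((q : ℝ) + 1) * QA R.comp ω ≤ 0 := by
      by_contra h2
      push Not at h2
      have : 0 < ((q : ℝ) + 2) * (rA R.comp ω - ((q : ℝ) + 1) * QA R.comp ω) :=
        mul_pos (by linarith) h2
      linarith
    have h2 : r - ((q : ℝ) + 1) * Q + c * k * M = rA R.comp ω - ((q : ℝ) + 1) * QA R.comp ω := by
      rw [hrR, hQR, hnr, hP]; ring
    rw [h2]
    exact h1
  have hposc : ∀ x v : Fin n → ℝ,
      0 ≤ ∑ j, ∑ k, v j * v k * (∑ i, ∑ l, x i * x l * R.wA c i j k l) := R.wA_pos c hext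
  have hI : ∀ η : Form n (q + 2), 3 * (((q : ℝ) + 1) * QA W.comp η)
      ≤ scalA W.comp * ip η η + (1 - (q : ℝ)) * rA W.comp η := by
    intro η
    rw [hcomp]
    exact coreA (R.wA_isCurv c) hposc η
  have hII : ∀ η : Form n (q + 2), 3 * (((q : ℝ) + 1) * QA W.comp η)
      ≤ ((b : ℝ) + 3) * rA W.comp η := by
    intro η
    rw [hcomp]
    rcases Nat.lt_or_ge b k with h1 | h1
    · have h2 : (b : ℝ) = (k : ℝ) - 1 := by
        have : k = b + 1 := by omega
        rw [this]; push_cast; ring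
      have h3 : Odd k := by
        have : k = b + 1 := by omega
        rw [this]
        exact hb.add_one
      have := Pool.Agent.H21.OE.univ_sharp (R.wA_isCurv c) hposc k q h3 hn η
      rw [h2]
      linarith
    · have h2 : (b : ℝ) = (k : ℝ) := by
        have : b = k := by omega
        rw [this]
      have hC := core_gen (R.wA_isCurv c) hposc η 0 1 le_rfl zero_le_one (by norm_num)
      rw [hnr, hP] at hC
      rw [h2]
      linarith
  have hI0 := hI ω
  have hII0 := hII ω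
  rw [← hQ, ← hr] at hI0 hII0
  rw [← hs] at hI0
  -- equality
  have hkey : 3 * (P + b) * (r - ((q : ℝ) + 1) * Q) + b * (s * M) ≤ 0 := by
    have h1 : 3 * (P + b) * (r - ((q : ℝ) + 1) * Q + c * k * M) ≤ 0 :=
      mul_nonpos_of_nonneg_of_nonpos (by positivity) hw1
    have h2 : 3 * (P + b) * (c * k * M) = b * (s * M) := by
      have : 3 * (P + b) * (c * k * M) = (3 * (P + b) * k * c) * M := by ring
      rw [this, hcs']; ring
    linarith
  have hX : 0 ≤ s * M + (1 - (q : ℝ)) * r - 3 * (((q : ℝ) + 1) * Q) := by linarith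
  have hY : 0 ≤ ((b : ℝ) + 3) * r - 3 * (((q : ℝ) + 1) * Q) := by linarith
  have hsum : b * (s * M + (1 - (q : ℝ)) * r - 3 * (((q : ℝ) + 1) * Q))
      + P * (((b : ℝ) + 3) * r - 3 * (((q : ℝ) + 1) * Q)) ≤ 0 := by
    have : b * (s * M + (1 - (q : ℝ)) * r - 3 * (((q : ℝ) + 1) * Q))
      + P * (((b : ℝ) + 3) * r - 3 * (((q : ℝ) + 1) * Q))
      = 3 * (P + b) * (r - ((q : ℝ) + 1) * Q) + b * (s * M) := by
      rw [hP]; ring
    rw [this]; exact hkey
  have e1 : 3 * (((q : ℝ) + 1) * Q) = s * M + (1 - (q : ℝ)) * r := by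
    by_contra hne
    have h1 : 0 < s * M + (1 - (q : ℝ)) * r - 3 * (((q : ℝ) + 1) * Q) :=
      lt_of_le_of_ne hX fun h => hne (by linarith)
    have h2 := mul_pos hb' h1
    have h3 := mul_nonneg hP0.le hY
    linarith
  have e2 : 3 * (((q : ℝ) + 1) * Q) = ((b : ℝ) + 3) * r := by
    by_contra hne
    have h1 : 0 < ((b : ℝ) + 3) * r - 3 * (((q : ℝ) + 1) * Q) :=
      lt_of_le_of_ne hY fun h => hne (by linarith)
    have h2 := mul_pos hP0 h1
    have h3 := mul_nonneg hb'.le hX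
    linarith
  have hker := kernel_eq W (b : ℝ) hI hII ω e1 e2
  rw [← hs, ← hP] at hker
  have hD1 : DA (ricL W) ω = (P * s / (P + b)) • ω := by
    have h1 : (P + (b : ℝ)) ≠ 0 := hPb.ne'
    have h2 : (P + (b : ℝ)) • DA (ricL W) ω = (P * s) • ω := by
      rw [← hker, add_comm P (b : ℝ)]
    calc DA (ricL W) ω = (P + (b : ℝ))⁻¹ • ((P + (b : ℝ)) • DA (ricL W) ω) := by
          rw [smul_smul, inv_mul_cancel₀ h1, one_smul]
      _ = _ := by rw [h2, smul_smul]; congr 1; field_simp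
  have hcne : P * s / (P + b) ≠ s := by
    intro h
    rw [div_eq_iff hPb.ne'] at h
    have : s * b = 0 := by linarith
    rcases mul_eq_zero.1 this with h1 | h1
    · exact hs0.ne' h1
    · exact hb'.ne' h1
  obtain ⟨T, hT, hT1, hTs, hT3⟩ := exists_T W hWpos ω hω
    (fun x v => K1 W hWpos ω e1 x v) _ hD1 hcne
  -- the model
  set g : ℝ := s / (P + b) with hg
  have hg0 : 0 < g := by positivity
  have hT3' : ∀ x, T (T (T x)) = -(g • T x) := by
    intro x
    have h1 := hT3 x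
    rw [← hP] at h1
    have h2 : P • T (T (T x)) = P • (-(g • T x)) := by
      rw [h1, smul_neg, smul_smul]
      congr 2
      rw [hg]; ring
    exact smul_right_injective _ hP0.ne' h2
  set t : ℝ := Real.sqrt g with ht
  have ht0 : 0 < t := Real.sqrt_pos.2 hg0
  have htt : t * t = g := Real.mul_self_sqrt hg0.le
  set J : E n →ₗ[ℝ] E n := t⁻¹ • T with hJ
  have hJx : ∀ x, J x = t⁻¹ • T x := fun x => rfl
  have hJs : ∀ x y : E n, ⟪J x, y⟫ = -⟪x, J y⟫ := by
    intro x y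
    rw [hJx, hJx, real_inner_smul_left, real_inner_smul_right, hT]
    ring
  have hJ2 : ∀ x, J (J x) = g⁻¹ • T (T x) := by
    intro x
    rw [hJx, hJx, map_smul, smul_smul, ← mul_inv, htt]
  have hJ3 : ∀ x, J (J (J x)) = -J x := by
    intro x
    rw [hJ2 (J x), hJx x, map_smul, map_smul, hT3', smul_neg, smul_neg, smul_smul, smul_smul]
    congr 2
    field_simp
  have hJt : ∑ i, ⟪J (J (e i)), (e i : E n)⟫ = -(P + b) := by
    have h1 : ∀ i : Fin n, ⟪J (J (e i)), (e i : E n)⟫ = g⁻¹ * ⟪T (T (e i)), (e i : E n)⟫ := by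
      intro i
      rw [hJ2, real_inner_smul_left]
    simp_rw [h1]
    rw [← Finset.mul_sum]
    have h2 : ∑ i, ⟪T (T (e i)), (e i : E n)⟫ = -s := by rw [hs, hTs, neg_neg]
    rw [h2, hg]
    field_simp
  refine ⟨g / 3, J, by positivity, ⟨hJs, hJ3, hJt⟩, ?_⟩
  have hJs' : ∀ x y : E n, ⟪J x, y⟫ = -⟪J y, x⟫ := by
    intro x y
    rw [hJs, real_inner_comm]
  have hcg : c = g * (m / (3 * K)) := by
    rw [hg]
    field_simp
    linarith
  intro x y z u
  have h1 := Conv_ext R (smulT g (RJ (m / (3 * K)) J hJs')) (fun x y => ?_) x y z u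
  · rw [h1, smulT_apply]
    change g * (m / (3 * K) * (⟪y, z⟫ * ⟪x, u⟫ - ⟪x, z⟫ * ⟪y, u⟫)
      + 1 / 3 * (⟪J y, z⟫ * ⟪J x, u⟫ - ⟪J x, z⟫ * ⟪J y, u⟫ - 2 * ⟪J x, y⟫ * ⟪J z, u⟫)) = _
    unfold sphForm kahForm
    rw [hJs x y]
    have h2 : m / (3 * K) = 1 / 3 * (m / K) := by
      field_simp
    rw [h2]
    ring
  · rw [smulT_apply]
    change _ = g * (m / (3 * K) * (⟪y, y⟫ * ⟪x, x⟫ - ⟪x, y⟫ * ⟪y, x⟫)
      + 1 / 3 * (⟪J y, y⟫ * ⟪J x, x⟫ - ⟪J x, y⟫ * ⟪J y, x⟫ - 2 * ⟪J x, y⟫ * ⟪J y, x⟫))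
    have h3 : R.toFun x y y x = c * (⟪y, y⟫ * ⟪x, x⟫ - ⟪x, y⟫ * ⟪y, x⟫) + W.toFun x y y x := by
      change _ = _ + (R.toFun x y y x - c * (⟪y, y⟫ * ⟪x, x⟫ - ⟪x, y⟫ * ⟪y, x⟫))
      ring
    have h4 : ⟪T x, y⟫ ^ 2 = g * ⟪J x, y⟫ ^ 2 := by
      rw [hJx, real_inner_smul_left, mul_pow, ← htt]
      field_simp
    rw [h3, hT1, h4, self_zero J hJs' x, hJs' y x, hcg]
    ring

end Pool.Agent.H91.AR
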