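import Pool.Agent.H91.AR.P11b
import Pool.Agent.H91.AR.Mod
import Pool.Agent.H91.OR.Model

set_option autoImplicit false

/-!
# The exceptional tensors are in the equality case
-/

namespace Pool.Agent.H91.AR

open Pool.Agent.H61.YP Pool.Agent.H8.RG Pool.Agent.H91.OC Pool.Agent.H91.OR Pool.Agent.H91.SX
  Pool.Agent.H21.OS
open scoped BigOperators RealInnerProductSpace

variable {n : ℕ}

/-- the exceptional tensors are in the equality case -/
theorem model_all (n p a b : ℕ) (h2 : 2 ≤ p) (hpn : p + 2 ≤ n) (ha : Even a)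
    (hap : a ≤ p) (hpa : p ≤ a + 1) (hb : Even b) (hbk : b ≤ n - p) (hkb : n - p ≤ b + 1)
    (R : CurvTensor n) (hR : IsModel R ((a : ℝ) * b / (p * ((n : ℝ) - p))) ((a : ℝ) + b)) :
    NonZero R ∧
    SecGe R ((a : ℝ) * b / (3 * (p * ((n : ℝ) - p)) * ((a : ℝ) + b)
      + (n : ℝ) * ((n : ℝ) - 1) * (a * b)) * R.scal) ∧ NotPos R p := by
  obtain ⟨l, J, hl, ⟨hs0, hJ, ht⟩, hR⟩ := hR
  have hs : ∀ x y : E n, ⟪J x, y⟫ = -⟪J y, x⟫ := by
    intro x y
    rw [hs0, real_inner_comm]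
  have ha2 : 2 ≤ a := by
    rcases ha with ⟨c, rfl⟩
    omega
  have hb2 : 2 ≤ b := by
    rcases hb with ⟨c, rfl⟩
    omega
  have ha' : (0 : ℝ) < a := by
    have : 0 < a := by omega
    exact_mod_cast this
  have hb' : (0 : ℝ) < b := by
    have : 0 < b := by omega
    exact_mod_cast this
  have hp' : (0 : ℝ) < p := by
    have : 0 < p := by omega
    exact_mod_cast this
  have hk' : (0 : ℝ) < (n : ℝ) - p := by
    have : ((p + 2 : ℕ) : ℝ) ≤ n := by exact_mod_cast hpn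
    push_cast at this
    linarith
  have hn1 : (0 : ℝ) < (n : ℝ) * ((n : ℝ) - 1) := by
    have : (2 : ℝ) ≤ (n : ℝ) := by
      have : 2 ≤ n := by omega
      exact_mod_cast this
    nlinarith
  obtain ⟨K, hK⟩ : ∃ K : ℝ, K = p * ((n : ℝ) - p) := ⟨_, rfl⟩
  have hK0 : 0 < K := by rw [hK]; exact mul_pos hp' hk'
  obtain ⟨N, hN⟩ : ∃ N : ℝ, N = (n : ℝ) * ((n : ℝ) - 1) := ⟨_, rfl⟩
  have hN0 : 0 < N := by rw [hN]; exact hn1
  obtain ⟨ω, hω, hw⟩ := model_form n p a b (by omega) (by omega) ha hap hpa hb hbk hkb J hs hJ ht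
  rw [← hK] at hR hw ⊢
  set c : ℝ := (a : ℝ) * b / (3 * K) with hc
  have hc0 : 0 < c := by positivity
  have hRe : R = smulT (3 * l) (RJ c J hs) := by
    refine curv_eq _ _ fun x y z u => ?_
    rw [hR]
    change _ = 3 * l * (c * (⟪y, z⟫ * ⟪x, u⟫ - ⟪x, z⟫ * ⟪y, u⟫)
      + 1 / 3 * (⟪J y, z⟫ * ⟪J x, u⟫ - ⟪J x, z⟫ * ⟪J y, u⟫ - 2 * ⟪J x, y⟫ * ⟪J z, u⟫))
    unfold sphForm kahForm
    rw [hs0 x y]
    have h2 : c = 1 / 3 * ((a : ℝ) * b / K) := by
      rw [hc]; field_simp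
    rw [h2]
    ring
  have hscal : R.scal = 3 * l * (c * N + ((a : ℝ) + b)) := by
    rw [hRe, smulT_scal, RJ_scal c J hs _ ht, hN]
  have hκ : (a : ℝ) * b / (3 * K * ((a : ℝ) + b) + (n : ℝ) * ((n : ℝ) - 1) * (a * b)) * R.scal
      = 3 * l * c := by
    rw [hscal, hc, ← hN]
    field_simp
    ring
  refine ⟨?_, ?_, ω, hω, ?_⟩
  · by_contra hcon
    unfold NonZero at hcon
    push Not at hcon
    have h0 : R.scal = 0 := by
      unfold CurvTensor.scal
      exact Finset.sum_eq_zero fun i _ => Finset.sum_eq_zero fun j _ => hcon _ _ _ _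
    have h1 : 0 < R.scal := by rw [hscal]; positivity
    linarith
  · intro x y hx hy hxy
    rw [hκ, hRe]
    change 3 * l * c ≤ 3 * l * (RJ c J hs).toFun x y y x
    rw [RJ_sec c J hs x y hx hy hxy]
    have := sq_nonneg ⟪J x, y⟫
    nlinarith
  · have h3 := smulT_weitz (3 * l) 1 (RJ c J hs) ω
    rw [one_smul, hw, ← hRe] at h3
    rw [h3]
    simp

end Pool.Agent.H91.AR
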