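import Pool.Agent.H91.OR.Defs
import Pool.Agent.H91.OC.CoreA
import Pool.Agent.H21.OS.Dual
import Pool.Agent.H61.YP.Main

set_option autoImplicit false

/-!
# The Hodge star, all degrees
-/

namespace Pool.Agent.H91.AR

open Pool.Agent.H61.YP Pool.Agent.H8.RG Pool.Agent.H91.OC
open scoped BigOperators RealInnerProductSpace

variable {n : ℕ}

private theorem S_weitz {κ q : ℕ} (hn : n = κ + q + 4) (R : CurvTensor n) (ω : Form n (q + 2)) :
    R.weitzForm (Pool.Agent.H21.OS.st (κ + 2) ω) =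
      (((κ : ℝ) + 2) * (((κ + 1).factorial : ℝ) / ((q + 2).factorial : ℝ))) *
      R.weitzForm ω := by
  rw [CurvTensor.weitzForm_comp, CurvTensor.weitzForm_comp, Pool.Agent.H21.OS.rA_st hn,
    Pool.Agent.H21.OS.QA_st R.isCurv hn]
  have h1 : ((q + 3).factorial : ℝ) = ((q : ℝ) + 3) * ((q + 2).factorial : ℝ) := by
    rw [Nat.factorial_succ (q + 2)]
    push_cast
    ring
  have h2 : ((q + 4).factorial : ℝ) = ((q : ℝ) + 4) * (((q : ℝ) + 3) * ((q + 2).factorial : ℝ)) := by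
    rw [Nat.factorial_succ (q + 3), ← h1]
    push_cast
    ring
  have h3 : ((κ + 1).factorial : ℝ) = ((κ : ℝ) + 1) * (κ.factorial : ℝ) := by
    rw [Nat.factorial_succ κ]
    push_cast
    ring
  have h4 : ((q + 2).factorial : ℝ) ≠ 0 := by positivity
  have h5 : ((q : ℝ) + 3) ≠ 0 := by positivity
  have h6 : ((q : ℝ) + 4) ≠ 0 := by positivity
  rw [h1, h2, h3]
  field_simp
  ring

private theorem S_ne {κ q : ℕ} (hn : n = κ + q + 4) (ω : Form n (q + 2)) (hω : ω ≠ 0) :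
    Pool.Agent.H21.OS.st (κ + 2) ω ≠ 0 := by
  intro h
  have h1 := Pool.Agent.H21.OS.st_ip (κ + 2) (q + 2) (by omega) ω ω
  rw [h] at h1
  have h2 := CurvTensor.ip_pos ω hω
  have h3 : ip (0 : Form n (κ + 2)) 0 = 0 := by
    have h4 := Pool.Agent.H21.OS.ip_sub_right (0 : Form n (κ + 2)) 0 0
    rw [sub_zero] at h4
    linarith
  rw [h3] at h1
  have h5 : 0 < (((κ + 2).factorial : ℝ) / ((q + 2).factorial : ℝ)) * ip ω ω := by positivity
  linarith

/-- the Hodge star preserves the nonpositive directions of the Weitzenböck form -/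
theorem star_all {κ q : ℕ} (hn : n = κ + q + 4) (R : CurvTensor n) (ω : Form n (q + 2))
    (hω : ω ≠ 0) (hw : R.weitzForm ω ≤ 0) : ∃ η : Form n (κ + 2), η ≠ 0 ∧ R.weitzForm η ≤ 0 := by
  refine ⟨Pool.Agent.H21.OS.st (κ + 2) ω, S_ne hn ω hω, ?_⟩
  rw [S_weitz hn]
  exact mul_nonpos_of_nonneg_of_nonpos (by positivity) hw

end Pool.Agent.H91.AR
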