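import Pool.Agent.H91.AR.Even
import Pool.Agent.H91.AR.Act
import Pool.Agent.H91.AR.ModelAll
import Pool.Agent.H91.AR.Star

set_option autoImplicit false

/-!
# Rigidity at the exact constant, all degrees
-/

namespace Pool.Agent.H91.AR

open Pool.Agent.H61.YP Pool.Agent.H8.RG Pool.Agent.H91.OC Pool.Agent.H91.OR Pool.Agent.H91.SX
  Pool.Agent.H21.OS
open scoped BigOperators RealInnerProductSpace

/-- even degree -/
theorem rigid_p_even (n p a b : ℕ) (h2 : 2 ≤ p) (hpn : p + 2 ≤ n) (hpe : Even p) (ha : Even a)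
    (hap : a ≤ p) (hpa : p ≤ a + 1) (hb : Even b) (hbk : b ≤ n - p) (hkb : n - p ≤ b + 1)
    (R : CurvTensor n) (hR : NonZero R)
    (hsec : SecGe R ((a : ℝ) * b / (3 * (p * ((n : ℝ) - p)) * ((a : ℝ) + b)
      + (n : ℝ) * ((n : ℝ) - 1) * (a * b)) * R.scal))
    (ω : Form n p) (hω : ω ≠ 0) (hw : R.weitzForm ω ≤ 0) :
    IsModel R ((a : ℝ) * b / (p * ((n : ℝ) - p))) ((a : ℝ) + b) := by
  obtain ⟨q, rfl⟩ : ∃ q, p = q + 2 := ⟨p - 2, by omega⟩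
  obtain ⟨k, rfl⟩ : ∃ k, n = k + q + 2 := ⟨n - (q + 2), by omega⟩
  obtain rfl : a = q + 2 := by
    rcases ha with ⟨c, rfl⟩
    rcases hpe with ⟨d, hd⟩
    omega
  have hk : ((k + q + 2 : ℕ) : ℝ) - ((q + 2 : ℕ) : ℝ) = k := by push_cast; ring
  have hq : ((q + 2 : ℕ) : ℝ) = (q : ℝ) + 2 := by push_cast; ring
  rw [hk, hq] at hsec ⊢
  exact rigid_even rfl hb (by rcases hb with ⟨c, rfl⟩; omega) (by omega) (by omega) R hR hsec ω hω hw

/-- **Rigidity at the exact constant.** -/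
theorem rigid_all (n p a b : ℕ) (h2 : 2 ≤ p) (hpn : p + 2 ≤ n) (hpar : Even p ∨ Even (n - p))
    (ha : Even a) (hap : a ≤ p) (hpa : p ≤ a + 1) (hb : Even b) (hbk : b ≤ n - p)
    (hkb : n - p ≤ b + 1) (R : CurvTensor n) (hR : NonZero R)
    (hsec : SecGe R ((a : ℝ) * b / (3 * (p * ((n : ℝ) - p)) * ((a : ℝ) + b)
      + (n : ℝ) * ((n : ℝ) - 1) * (a * b)) * R.scal)) (hN : NotPos R p) :
    IsModel R ((a : ℝ) * b / (p * ((n : ℝ) - p))) ((a : ℝ) + b) := by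
  obtain ⟨ω, hω, hw⟩ := hN
  rcases hpar with he | he
  · exact rigid_p_even n p a b h2 hpn he ha hap hpa hb hbk hkb R hR hsec ω hω hw
  · obtain ⟨q, rfl⟩ : ∃ q, p = q + 2 := ⟨p - 2, by omega⟩
    obtain ⟨κ, hκ⟩ : ∃ κ, n = κ + q + 4 := ⟨n - (q + 4), by omega⟩
    obtain ⟨η, hη, hwη⟩ := star_all hκ R ω hω hw
    have hcast : (n : ℝ) = ((κ + 2 : ℕ) : ℝ) + ((q + 2 : ℕ) : ℝ) := by
      rw [hκ]; push_cast; ring
    have hnp : n - (q + 2) = κ + 2 := by omega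
    rw [hnp] at he hbk hkb
    have e1 : ((q + 2 : ℕ) : ℝ) * ((n : ℝ) - ((q + 2 : ℕ) : ℝ))
        = ((κ + 2 : ℕ) : ℝ) * ((n : ℝ) - ((κ + 2 : ℕ) : ℝ)) := by
      rw [hcast]; ring
    have e2 : (a : ℝ) * b = (b : ℝ) * a := mul_comm _ _
    have e3 : (a : ℝ) + b = (b : ℝ) + a := add_comm _ _
    rw [e1, e2, e3] at hsec ⊢
    exact rigid_p_even n (κ + 2) b a (by omega) (by omega) he hb hbk hkb ha (by omega) (by omega)
      R hR hsec η hη hwη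

/-- no parallel forms in odd dimensions -/
theorem act_all (n p a b : ℕ) (h2 : 2 ≤ p) (hpn : p + 2 ≤ n) (hn : Odd n)
    (ha : Even a) (hap : a ≤ p) (hb : Even b) (hbk : b ≤ n - p) (R : CurvTensor n)
    (hR : IsModel R ((a : ℝ) * b / (p * ((n : ℝ) - p))) ((a : ℝ) + b)) (ha0 : 0 < a)
    (hb0 : 0 < b) (ω : Form n p) (hω : ω ≠ 0) :
    ∃ (x y : E n) (v : Fin p → E n), R.act ω x y v ≠ 0 := by
  obtain ⟨l, J, hl, ⟨hs0, hJ, ht⟩, hR⟩ := hR
  have hs : ∀ x y : E n, ⟪J x, y⟫ = -⟪J y, x⟫ := by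
    intro x y
    rw [hs0, real_inner_comm]
  have hlt : a + b < n := by
    rcases ha with ⟨c, rfl⟩
    rcases hb with ⟨d, rfl⟩
    rcases hn with ⟨m, rfl⟩
    omega
  obtain ⟨m, hm⟩ : ∃ m, a + b = 2 * m := by
    rcases ha with ⟨c, rfl⟩
    rcases hb with ⟨d, rfl⟩
    exact ⟨c + d, by ring⟩
  have hmr : (a : ℝ) + b = 2 * (m : ℝ) := by exact_mod_cast hm
  obtain ⟨ν, hν, hJν⟩ := exists_nu J m hs hJ (by rw [ht, hmr]) (by omega)
  have ha' : (0 : ℝ) < a := by exact_mod_cast ha0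
  have hb' : (0 : ℝ) < b := by exact_mod_cast hb0
  have hp' : (0 : ℝ) < p := by
    have : 0 < p := by omega
    exact_mod_cast this
  have hk' : (0 : ℝ) < (n : ℝ) - p := by
    have : ((p + 2 : ℕ) : ℝ) ≤ n := by exact_mod_cast hpn
    push_cast at this
    linarith
  have hc : (0 : ℝ) < (a : ℝ) * b / (p * ((n : ℝ) - p)) := by positivity
  obtain ⟨q, rfl⟩ : ∃ q, p = q + 1 := ⟨p - 1, by omega⟩
  exact act_ne_all (by omega) R l _ hl hc J ν hν hJν hs0 hR ω hω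

end Pool.Agent.H91.AR
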