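import Pool.Agent.H91.AR.Defs

set_option autoImplicit false

/-!
Piece P11a of project AR: a skew map with `J³ = -J` and trace of `J²` equal to `-2 m` has a standard
frame of its range, and a unit vector in its kernel if `2 m < n`.
-/

namespace Pool.Agent.H91.AR

open Pool.Agent.H61.YP Pool.Agent.H8.RG
open scoped BigOperators RealInnerProductSpace

variable {n : ℕ}

private theorem parseval (v : E n) : ∑ j, ⟪v, (e j : E n)⟫ * ⟪v, (e j : E n)⟫ = ⟪v, v⟫ := by
  conv_rhs => rw [← sum_inner_smul v, sum_inner]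
  refine Finset.sum_congr rfl fun j _ => ?_
  rw [real_inner_smul_left, sum_inner_smul, real_inner_comm (e j : E n) v]

private theorem step (J : E n →ₗ[ℝ] E n) (m k : ℕ) (hkm : k < m)
    (hs : ∀ x y : E n, ⟪J x, y⟫ = -⟪J y, x⟫)
    (hJ : ∀ x, J (J (J x)) = -J x)
    (ht : ∑ i, ⟪J (J (e i)), (e i : E n)⟫ = -(2 * (m : ℝ)))
    (u : Fin k → E n) (h1 : ∀ i, J (J (u i)) = -u i)
    (h2 : ∀ i j, ⟪u i, u j⟫ = if i = j then (1 : ℝ) else 0)
    (h3 : ∀ i j, ⟪J (u i), u j⟫ = 0) :
    ∃ y : E n, J (J y) = -y ∧ ⟪y, y⟫ = (1 : ℝ) ∧ (∀ j, ⟪y, u j⟫ = 0) ∧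
      (∀ j, ⟪J y, u j⟫ = 0) ∧ ⟪J y, y⟫ = 0 := by
  -- the inner products of the vectors `J (u i)`
  have h4 : ∀ i j, ⟪J (u i), J (u j)⟫ = if i = j then (1 : ℝ) else 0 := by
    intro i j
    rw [hs, h1, inner_neg_left, neg_neg, h2]
    by_cases hij : i = j
    · rw [if_pos hij, if_pos hij.symm]
    · rw [if_neg hij, if_neg fun h => hij h.symm]
  have hsym : ∀ x y : E n, ⟪J (J x), y⟫ = ⟪x, J (J y)⟫ := by
    intro x y
    have a := hs (J x) y
    have b := hs x (J y)
    rw [a, real_inner_comm, b, neg_neg, real_inner_comm]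
  let Q : E n → E n := fun x => ∑ i, (⟪u i, x⟫ • u i + ⟪J (u i), x⟫ • J (u i))
  have hQ : ∀ x, Q x = ∑ i, (⟪u i, x⟫ • u i + ⟪J (u i), x⟫ • J (u i)) := fun _ => rfl
  have hex : ∃ x, -J (J x) - Q x ≠ 0 := by
    by_contra hcon
    have hcon' : ∀ x, -J (J x) = Q x := by
      intro x
      by_contra h
      exact hcon ⟨x, fun h' => h (sub_eq_zero.1 h')⟩
    have e1 : ∑ j, ⟪Q (e j), (e j : E n)⟫ = 2 * (m : ℝ) := by
      have : ∀ j : Fin n, ⟪Q (e j), (e j : E n)⟫ = -⟪J (J (e j)), (e j : E n)⟫ := by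
        intro j
        rw [← hcon', inner_neg_left]
      rw [Finset.sum_congr rfl fun j _ => this j, Finset.sum_neg_distrib, ht, neg_neg]
    have e2 : ∑ j, ⟪Q (e j), (e j : E n)⟫ = 2 * (k : ℝ) := by
      have : ∀ j : Fin n, ⟪Q (e j), (e j : E n)⟫ =
          ∑ i, (⟪u i, (e j : E n)⟫ * ⟪u i, (e j : E n)⟫ +
            ⟪J (u i), (e j : E n)⟫ * ⟪J (u i), (e j : E n)⟫) := by
        intro j
        rw [hQ, sum_inner]
        refine Finset.sum_congr rfl fun i _ => ?_
        rw [inner_add_left, real_inner_smul_left, real_inner_smul_left]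
      rw [Finset.sum_congr rfl fun j _ => this j, Finset.sum_comm]
      have h5 : ∀ i : Fin k, ∑ j, (⟪u i, (e j : E n)⟫ * ⟪u i, (e j : E n)⟫ +
            ⟪J (u i), (e j : E n)⟫ * ⟪J (u i), (e j : E n)⟫) = 2 := by
        intro i
        rw [Finset.sum_add_distrib, parseval, parseval, h2, h4, if_pos rfl]
        norm_num
      rw [Finset.sum_congr rfl fun i _ => h5 i, Finset.sum_const, Finset.card_univ,
        Fintype.card_fin, nsmul_eq_mul]
      ring
    have e3 : (m : ℝ) = k := by linarith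
    have e4 : m = k := by exact_mod_cast e3
    omega
  obtain ⟨x, hx⟩ := hex
  set z : E n := -J (J x) - Q x with hz
  have hz1 : J (J z) = -z := by
    rw [hz, map_sub, map_sub, map_neg, map_neg, hJ, hQ, map_sum, map_sum]
    have : ∀ i : Fin k, J (J (⟪u i, x⟫ • u i + ⟪J (u i), x⟫ • J (u i))) =
        -(⟪u i, x⟫ • u i + ⟪J (u i), x⟫ • J (u i)) := by
      intro i
      rw [map_add, map_add, map_smul, map_smul, map_smul, map_smul, hJ, h1, smul_neg, smul_neg]
      abel
    rw [Finset.sum_congr rfl fun i _ => this i, Finset.sum_neg_distrib]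
    abel
  have hz2 : ∀ j, ⟪z, u j⟫ = 0 := by
    intro j
    rw [hz, inner_sub_left, inner_neg_left, hsym, h1, inner_neg_right, neg_neg, hQ, sum_inner,
      Finset.sum_eq_single j]
    · rw [inner_add_left, real_inner_smul_left, real_inner_smul_left, h2, h3, if_pos rfl,
        real_inner_comm]
      ring
    · intro i _ hij
      rw [inner_add_left, real_inner_smul_left, real_inner_smul_left, h2, h3, if_neg hij]
      ring
    · intro h
      exact absurd (Finset.mem_univ _) h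
  have hz3 : ∀ j, ⟪J z, u j⟫ = 0 := by
    intro j
    rw [hs, neg_eq_zero, real_inner_comm, hz, inner_sub_left, inner_neg_left, hsym, hJ,
      inner_neg_right, neg_neg, hQ, sum_inner, Finset.sum_eq_single j]
    · rw [inner_add_left, real_inner_smul_left, real_inner_smul_left, h4, if_pos rfl,
        real_inner_comm (J (u j)) (u j), h3, real_inner_comm]
      ring
    · intro i _ hij
      rw [inner_add_left, real_inner_smul_left, real_inner_smul_left, h4, if_neg hij,
        real_inner_comm (J (u j)) (u i), h3]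
      ring
    · intro h
      exact absurd (Finset.mem_univ _) h
  have hz4 : ⟪J z, z⟫ = 0 := by
    have := hs z z
    linarith
  have hn : ‖z‖ ≠ 0 := norm_ne_zero_iff.2 hx
  refine ⟨‖z‖⁻¹ • z, ?_, ?_, ?_, ?_, ?_⟩
  · rw [map_smul, map_smul, hz1, smul_neg]
  · rw [real_inner_smul_left, real_inner_smul_right, real_inner_self_eq_norm_sq]
    field_simp
  · intro j
    rw [real_inner_smul_left, hz2, mul_zero]
  · intro j
    rw [map_smul, real_inner_smul_left, hz3, mul_zero]
  · rw [map_smul, real_inner_smul_left, real_inner_smul_right, hz4, mul_zero, mul_zero]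

private theorem fam (J : E n →ₗ[ℝ] E n) (m : ℕ)
    (hs : ∀ x y : E n, ⟪J x, y⟫ = -⟪J y, x⟫)
    (hJ : ∀ x, J (J (J x)) = -J x)
    (ht : ∑ i, ⟪J (J (e i)), (e i : E n)⟫ = -(2 * (m : ℝ))) (k : ℕ) (hk : k ≤ m) :
    ∃ u : Fin k → E n, (∀ i, J (J (u i)) = -u i) ∧
      (∀ i j, ⟪u i, u j⟫ = if i = j then (1 : ℝ) else 0) ∧ (∀ i j, ⟪J (u i), u j⟫ = 0) := by
  induction k with
  | zero => exact ⟨Fin.elim0, fun i => i.elim0, fun i => i.elim0, fun i => i.elim0⟩
  | succ k ih =>
    obtain ⟨u, h1, h2, h3⟩ := ih (Nat.le_of_succ_le hk)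
    obtain ⟨y, g1, g2, g3, g4, g5⟩ := step J m k hk hs hJ ht u h1 h2 h3
    refine ⟨Fin.cons y u, ?_, ?_, ?_⟩
    · intro i
      refine Fin.cases ?_ (fun i => ?_) i
      · rw [Fin.cons_zero]; exact g1
      · rw [Fin.cons_succ]; exact h1 i
    · intro i j
      refine Fin.cases ?_ (fun i => ?_) i
      · refine Fin.cases ?_ (fun j => ?_) j
        · rw [Fin.cons_zero, if_pos rfl]; exact g2
        · rw [Fin.cons_zero, Fin.cons_succ, if_neg (Fin.succ_ne_zero j).symm]; exact g3 j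
      · refine Fin.cases ?_ (fun j => ?_) j
        · rw [Fin.cons_zero, Fin.cons_succ, if_neg (Fin.succ_ne_zero i), real_inner_comm]
          exact g3 i
        · rw [Fin.cons_succ, Fin.cons_succ, h2]
          by_cases hij : i = j
          · rw [if_pos hij, if_pos (by rw [hij])]
          · rw [if_neg hij, if_neg fun h => hij (Fin.succ_injective _ h)]
    · intro i j
      refine Fin.cases ?_ (fun i => ?_) i
      · refine Fin.cases ?_ (fun j => ?_) j
        · rw [Fin.cons_zero]; exact g5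
        · rw [Fin.cons_zero, Fin.cons_succ]; exact g4 j
      · refine Fin.cases ?_ (fun j => ?_) j
        · rw [Fin.cons_zero, Fin.cons_succ, hs, g4, neg_zero]
        · rw [Fin.cons_succ, Fin.cons_succ]; exact h3 i j

theorem frame_of_J (J : E n →ₗ[ℝ] E n) (m : ℕ) (hs : ∀ x y : E n, ⟪J x, y⟫ = -⟪J y, x⟫)
    (hJ : ∀ x, J (J (J x)) = -J x)
    (ht : ∑ i, ⟪J (J (e i)), (e i : E n)⟫ = -(2 * (m : ℝ))) :
    ∃ w : Fin m × Bool → E n,
      (∀ a b, ⟪J (w a), w b⟫ = if a.1 = b.1 then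
        (if a.2 then (if b.2 then 0 else -1) else (if b.2 then 1 else 0)) else 0) ∧
      (∀ a, ∃ y, w a = J y) := by
  obtain ⟨u, h1, h2, h3⟩ := fam J m hs hJ ht m le_rfl
  have h4 : ∀ i j, ⟪J (u i), J (u j)⟫ = if i = j then (1 : ℝ) else 0 := by
    intro i j
    rw [hs, h1, inner_neg_left, neg_neg, h2]
    by_cases hij : i = j
    · rw [if_pos hij, if_pos hij.symm]
    · rw [if_neg hij, if_neg fun h => hij h.symm]
  refine ⟨fun a => if a.2 then J (u a.1) else u a.1, ?_, ?_⟩
  · rintro ⟨i, a⟩ ⟨j, b⟩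
    cases a <;> cases b
    · simp only [Bool.false_eq_true, if_false, ite_self]
      exact h3 i j
    · simp only [Bool.false_eq_true, if_false, if_true]
      exact h4 i j
    · simp only [Bool.false_eq_true, if_false, if_true]
      rw [h1, inner_neg_left, h2]
      by_cases hij : i = j
      · rw [if_pos hij, if_pos hij]
      · rw [if_neg hij, if_neg hij, neg_zero]
    · simp only [if_true, ite_self]
      rw [h1, inner_neg_left, real_inner_comm, h3, neg_zero]
  · rintro ⟨i, a⟩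
    cases a
    · refine ⟨-J (u i), ?_⟩
      simp only [Bool.false_eq_true, if_false]
      rw [map_neg, h1, neg_neg]
    · exact ⟨u i, by simp only [if_true]⟩

theorem exists_nu (J : E n →ₗ[ℝ] E n) (m : ℕ) (hs : ∀ x y : E n, ⟪J x, y⟫ = -⟪J y, x⟫)
    (hJ : ∀ x, J (J (J x)) = -J x)
    (ht : ∑ i, ⟪J (J (e i)), (e i : E n)⟫ = -(2 * (m : ℝ))) (hm : 2 * m < n) :
    ∃ ν : E n, ‖ν‖ = 1 ∧ J ν = 0 := by
  have hex : ∃ x : E n, x + J (J x) ≠ 0 := by
    by_contra hcon
    have hcon' : ∀ x : E n, J (J x) = -x := by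
      intro x
      by_contra h
      exact hcon ⟨x, fun h' => h (eq_neg_of_add_eq_zero_right h')⟩
    have e1 : ∀ j : Fin n, ⟪J (J (e j)), (e j : E n)⟫ = -1 := by
      intro j
      rw [hcon', inner_neg_left, inner_e, if_pos rfl]
    rw [Finset.sum_congr rfl fun j _ => e1 j, Finset.sum_const, Finset.card_univ,
      Fintype.card_fin, nsmul_eq_mul] at ht
    have e2 : ((n : ℕ) : ℝ) = ((2 * m : ℕ) : ℝ) := by push_cast; linarith
    have e3 : n = 2 * m := by exact_mod_cast e2
    omega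
  obtain ⟨x, hx⟩ := hex
  have hn : ‖x + J (J x)‖ ≠ 0 := norm_ne_zero_iff.2 hx
  refine ⟨‖x + J (J x)‖⁻¹ • (x + J (J x)), ?_, ?_⟩
  · rw [norm_smul, norm_inv, norm_norm, inv_mul_cancel₀ hn]
  · rw [map_smul, map_add, hJ, add_neg_cancel, smul_zero]

end Pool.Agent.H91.AR
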