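import Pool.Agent.H91.AR.P11a
import Pool.Agent.H91.SX.Ex

set_option autoImplicit false

/-!
# Project AR, P11b: a form in the kernel of the Weitzenböck operator of every model

The frame of `J` (`frame_of_J`) and a unit vector killed by `J` (`exists_nu`) come from P11a.
-/

namespace Pool.Agent.H91.AR

open Pool.Agent.H61.YP Pool.Agent.H8.RG Pool.Agent.H91.SX
open scoped BigOperators RealInnerProductSpace

variable {n : ℕ}

private theorem model_form_of (n p a b : ℕ) (hp : 0 < p) (hpn : p < n) (ha : Even a)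
    (hap : a ≤ p) (hpa : p ≤ a + 1) (hb : Even b) (hbk : b ≤ n - p)
    (J : E n →ₗ[ℝ] E n) (hs : ∀ x y : E n, ⟪J x, y⟫ = -⟪J y, x⟫) (hJ : ∀ x, J (J (J x)) = -J x)
    (ht : ∑ i, ⟪J (J (e i)), (e i : E n)⟫ = -((a : ℝ) + b))
    (frame : ∀ m : ℕ, ∑ i, ⟪J (J (e i)), (e i : E n)⟫ = -(2 * (m : ℝ)) →
      ∃ w : Fin m × Bool → E n,
        (∀ a b, ⟪J (w a), w b⟫ = if a.1 = b.1 then
          (if a.2 then (if b.2 then 0 else -1) else (if b.2 then 1 else 0)) else 0) ∧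
        (∀ a, ∃ y, w a = J y))
    (nu : ∀ m : ℕ, ∑ i, ⟪J (J (e i)), (e i : E n)⟫ = -(2 * (m : ℝ)) → 2 * m < n →
      ∃ ν : E n, ‖ν‖ = 1 ∧ J ν = 0) :
    ∃ ω : Form n p, ω ≠ 0 ∧
      (RJ ((a : ℝ) * b / (3 * (p * ((n : ℝ) - p)))) J hs).weitzForm ω = 0 := by
  have hp' : (0 : ℝ) < p := by exact_mod_cast hp
  have hk' : (0 : ℝ) < (n : ℝ) - p := by
    have : (p : ℝ) < n := by exact_mod_cast hpn
    linarith
  obtain ⟨q, hq⟩ := ha
  obtain ⟨r, hr⟩ := hb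
  have ht' : ∑ i, ⟪J (J (e i)), (e i : E n)⟫ = -(2 * ((q + r : ℕ) : ℝ)) := by
    rw [ht, hq, hr]; push_cast; ring
  obtain ⟨w, hw, hwJ⟩ := frame (q + r) ht'
  have hqm : q ≤ q + r := Nat.le_add_right _ _
  have hw' := frame_restrict J hqm w hw
  -- the form
  obtain ⟨ν, hν0, ω, hω0, hω⟩ : ∃ ν : E n, J ν = 0 ∧ ∃ ω : Form n p, ω ≠ 0 ∧
      ∀ (g : E n → E n) (μ : ℝ),
        (∀ z u : E n, ⟪J (g z), u⟫ + ⟪J z, g u⟫ = μ * ⟪J z, u⟫) → (∀ z, ⟪ν, g z⟫ = 0) →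
        ∀ v : Fin p → E n, ∑ b, ω (Function.update v b (g (v b))) = (μ * (q : ℝ)) * ω v := by
    rcases Nat.lt_or_ge a p with h1 | h1
    · obtain ⟨ν, hν1, hν2⟩ := nu (q + r) ht' (by omega)
      have hν3 : ∀ a, ⟪ν, w a⟫ = 0 := by
        intro a
        obtain ⟨y, hy⟩ := hwJ a
        rw [hy, skew' J hs, hν2, inner_zero_left, neg_zero]
      have hpq : p = 2 * q + 1 := by omega
      subst hpq
      obtain ⟨ω, h1, h2⟩ := exists_form' J q (fun a => w (Fin.castLE hqm a.1, a.2)) hw' ν hν1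
        (fun a => hν3 _)
      exact ⟨ν, hν2, ω, h1, h2⟩
    · have hpq : p = 2 * q := by omega
      subst hpq
      obtain ⟨ω, h1, h2⟩ := exists_form J q (fun a => w (Fin.castLE hqm a.1, a.2)) hw'
      exact ⟨0, map_zero J, ω, h1, fun g μ hg _ => h2 g μ hg⟩
  refine ⟨ω, hω0, ?_⟩
  rw [weitzForm_RJ _ J hs hJ _ ht ν hν0 (q : ℝ) ω hω]
  have e1 : (a : ℝ) * b / (3 * (p * ((n : ℝ) - p))) * ((n : ℝ) * p - (p : ℝ) ^ 2)
      = (a : ℝ) * b / 3 := by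
    have e2 : (n : ℝ) * p - (p : ℝ) ^ 2 = p * ((n : ℝ) - p) := by ring
    rw [e2]
    field_simp
  have e3 : (a : ℝ) = 2 * q := by rw [hq]; push_cast; ring
  rw [e1, ← e3]
  ring

theorem model_form (n p a b : ℕ) (hp : 0 < p) (hpn : p < n) (ha : Even a)
    (hap : a ≤ p) (hpa : p ≤ a + 1) (hb : Even b) (hbk : b ≤ n - p) (hkb : n - p ≤ b + 1)
    (J : E n →ₗ[ℝ] E n) (hs : ∀ x y : E n, ⟪J x, y⟫ = -⟪J y, x⟫) (hJ : ∀ x, J (J (J x)) = -J x)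
    (ht : ∑ i, ⟪J (J (e i)), (e i : E n)⟫ = -((a : ℝ) + b)) :
    ∃ ω : Form n p, ω ≠ 0 ∧
      (RJ ((a : ℝ) * b / (3 * (p * ((n : ℝ) - p)))) J hs).weitzForm ω = 0 :=
  model_form_of n p a b hp hpn ha hap hpa hb hbk J hs hJ ht
    (fun m hm => frame_of_J J m hs hJ hm) (fun m hm h2 => exists_nu J m hs hJ hm h2)

end Pool.Agent.H91.AR
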