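import Pool.Agent.H91.AR.Defs

set_option autoImplicit false

/-!
# Project AR, piece P12: `upd_wedge` and `act_zero`
-/

namespace Pool.Agent.H91.AR

open Pool.Agent.H61.YP Pool.Agent.H8.RG Pool.Agent.H91.OC Pool.Agent.H21.OS
open scoped BigOperators RealInnerProductSpace

variable {n : ℕ}

theorem upd_wedge {p : ℕ} (ω : Form n (p + 1)) (x y : E n) (v : Fin (p + 1) → E n) :
    ∑ b, ω (Function.update v b (⟪y, v b⟫ • x)) = Lw y (ω.curryLeft x) v := by
  rw [Lw_apply]
  refine Finset.sum_congr rfl fun b _ => ?_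
  rw [AlternatingMap.map_update_smul, AlternatingMap.curryLeft_apply_apply]
  have h1 := ω.map_insertNth b x (Fin.removeNth b v)
  rw [Fin.insertNth_removeNth] at h1
  rw [h1, zsmul_eq_mul, smul_eq_mul]
  push_cast
  ring

private lemma P12_sum {q : ℕ} {ι : Type*} (t : Finset ι) (f : ι → Form n q) (v : Fin q → E n) :
    (∑ i ∈ t, f i) v = ∑ i ∈ t, f i v := by
  classical
  induction t using Finset.induction_on with
  | empty => rfl
  | insert a t ha ih =>
    rw [Finset.sum_insert ha, Finset.sum_insert ha, AlternatingMap.add_apply, ih]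

private lemma P12_num {q : ℕ} (β : Form n (q + 1)) :
    ∑ i, Lw (e i) (β.curryLeft (e i)) = ((q : ℝ) + 1) • β := by
  ext v
  have h1 : (∑ i, Lw (e i) (β.curryLeft (e i))) v = ∑ i, Lw (e i) (β.curryLeft (e i)) v := by
    rw [P12_sum]
  rw [h1, Finset.sum_congr rfl fun i _ => (upd_wedge β (e i) (e i) v).symm, Finset.sum_comm]
  have h2 : ∀ b, ∑ i, β (Function.update v b (⟪(e i : E n), v b⟫ • (e i : E n))) = β v := by
    intro b
    have h3 : ∀ i, β (Function.update v b (⟪(e i : E n), v b⟫ • (e i : E n))) =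
        ⟪(e i : E n), v b⟫ • β (Function.update v b (e i : E n)) := fun i =>
      AlternatingMap.map_update_smul _ _ _ _ _
    have h4 : β (Function.update v b (∑ i, ⟪v b, (e i : E n)⟫ • (e i : E n))) =
        ∑ i, β (Function.update v b (⟪v b, (e i : E n)⟫ • (e i : E n))) :=
      β.toMultilinearMap.map_update_sum Finset.univ b (fun i => ⟪v b, (e i : E n)⟫ • (e i : E n)) v
    rw [sum_inner_smul, Function.update_eq_self] at h4
    rw [h4]
    refine Finset.sum_congr rfl fun i _ => ?_
    rw [real_inner_comm]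
  rw [Finset.sum_congr rfl fun b _ => h2 b, Finset.sum_const, Finset.card_univ, Fintype.card_fin,
    AlternatingMap.smul_apply, nsmul_eq_mul, smul_eq_mul]
  push_cast
  ring

private lemma P12_curry_sum {q : ℕ} (ω : Form n (q + 1)) (ν : E n) :
    ∑ i, ⟪ν, (e i : E n)⟫ • ω.curryLeft (e i) = ω.curryLeft ν := by
  conv_rhs => rw [← sum_inner_smul ν, map_sum]
  exact Finset.sum_congr rfl fun i _ => by rw [map_smul]

private lemma P12_inner_self (ν : E n) (hν : ‖ν‖ = 1) : ⟪ν, ν⟫ = (1 : ℝ) := by
  rw [real_inner_self_eq_norm_sq, hν]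
  norm_num

private lemma P12_self {q : ℕ} (ω : Form n (q + 2)) (x : E n) :
    (ω.curryLeft x).curryLeft x = 0 := by
  have h := curry_swap' ω x x
  have h2 : (2 : ℝ) • (ω.curryLeft x).curryLeft x = 0 := by
    rw [two_smul]
    nth_rewrite 1 [h]
    exact neg_add_cancel _
  exact (smul_eq_zero.1 h2).resolve_left two_ne_zero

theorem act_zero {p : ℕ} (ω : Form n (p + 1)) (hp : p + 1 < n) (ν : E n) (hν : ‖ν‖ = 1)
    (h : ∀ y, Lw y (ω.curryLeft ν) = Lw ν (ω.curryLeft y)) : ω = 0 := by
  have hn : (p : ℝ) + 1 < n := by exact_mod_cast hp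
  have hνν := P12_inner_self ν hν
  have hee : ∀ i : Fin n, ⟪(e i : E n), e i⟫ = (1 : ℝ) := fun i => by rw [inner_e, if_pos rfl]
  -- sum of the contractions
  have hs : ∑ i, (Lw (e i) (ω.curryLeft ν)).curryLeft (e i) =
      ∑ i, (Lw ν (ω.curryLeft (e i))).curryLeft (e i) :=
    Finset.sum_congr rfl fun i _ => by rw [h (e i)]
  cases p with
  | zero =>
    have h1 : ∀ i : Fin n, (Lw (e i) (ω.curryLeft ν)).curryLeft (e i) = ω.curryLeft ν := fun i => by
      rw [car0, hee, one_smul]
    have h2 : ∀ i : Fin n, (Lw ν (ω.curryLeft (e i))).curryLeft (e i) =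
        ⟪ν, (e i : E n)⟫ • ω.curryLeft (e i) := fun i => by rw [car0]
    rw [Finset.sum_congr rfl fun i _ => h1 i, Finset.sum_congr rfl fun i _ => h2 i,
      P12_curry_sum, Finset.sum_const, Finset.card_univ, Fintype.card_fin,
      ← Nat.cast_smul_eq_nsmul ℝ] at hs
    have h4 : ω.curryLeft ν = 0 := by
      ext v
      have h3 := congrArg (fun F : Form n 0 => F v) hs
      change (n : ℝ) * (ω.curryLeft ν) v = (ω.curryLeft ν) v at h3
      have h6 : ((n : ℝ) - 1) * (ω.curryLeft ν) v = 0 := by linarith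
      refine (mul_eq_zero.1 h6).resolve_left ?_
      push_cast at hn
      intro h5
      linarith
    apply form_zero
    intro y
    have h5 : (Lw y (ω.curryLeft ν)).curryLeft ν = (Lw ν (ω.curryLeft y)).curryLeft ν := by
      rw [h y]
    rw [h4, Lw_zero, curry_zero, car0, hνν, one_smul] at h5
    exact h5.symm
  | succ q =>
    have h1 : ∀ i : Fin n, (Lw (e i) (ω.curryLeft ν)).curryLeft (e i) =
        ω.curryLeft ν - Lw (e i) ((ω.curryLeft ν).curryLeft (e i)) := fun i => by
      rw [car, hee, one_smul]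
    have h2 : ∀ i : Fin n, (Lw ν (ω.curryLeft (e i))).curryLeft (e i) =
        ⟪ν, (e i : E n)⟫ • ω.curryLeft (e i) := fun i => by
      rw [car, P12_self, Lw_zero, sub_zero]
    rw [Finset.sum_congr rfl fun i _ => h1 i, Finset.sum_congr rfl fun i _ => h2 i,
      P12_curry_sum, Finset.sum_sub_distrib, P12_num, Finset.sum_const, Finset.card_univ,
      Fintype.card_fin, ← Nat.cast_smul_eq_nsmul ℝ] at hs
    have h4 : ω.curryLeft ν = 0 := by
      ext v
      have h3 := congrArg (fun F : Form n (q + 1) => F v) hs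
      change (n : ℝ) * (ω.curryLeft ν) v - ((q : ℝ) + 1) * (ω.curryLeft ν) v =
        (ω.curryLeft ν) v at h3
      have h6 : ((n : ℝ) - (q + 1) - 1) * (ω.curryLeft ν) v = 0 := by linarith
      refine (mul_eq_zero.1 h6).resolve_left ?_
      push_cast at hn
      intro h5
      linarith
    apply form_zero
    intro y
    have h5 : (Lw y (ω.curryLeft ν)).curryLeft ν = (Lw ν (ω.curryLeft y)).curryLeft ν := by
      rw [h y]
    rw [h4, Lw_zero, curry_zero, car, hνν, one_smul, curry_swap' ω y ν, h4, curry_zero, neg_zero,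
      Lw_zero, sub_zero] at h5
    exact h5.symm

end Pool.Agent.H91.AR
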