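import Pool.Agent.H91.AR.Defs

set_option autoImplicit false

/-!
# Project AR, piece P4: the derivation by the Jacobi operator
-/

namespace Pool.Agent.H91.AR

open Pool.Agent.H61.YP Pool.Agent.H8.RG Pool.Agent.H91.OC Pool.Agent.H91.OR
  Pool.Agent.H21.OS
open scoped BigOperators RealInnerProductSpace

variable {n : ℕ}

private lemma ext_K2 {u v : E n} (h : ∀ w : E n, ⟪u, w⟫ = ⟪v, w⟫) : u = v := by
  have h1 : ⟪u - v, u - v⟫ = 0 := by rw [inner_sub_left, h, sub_self]
  exact sub_eq_zero.1 (inner_self_eq_zero.1 h1)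

private lemma inner_jacP_K2 (W : CurvTensor n) (x y v w : E n) :
    ⟪jacP W x y v, w⟫ = W.toFun x v w y + W.toFun y v w x := by
  have h1 : w = ∑ k, ⟪w, (e k : E n)⟫ • (e k : E n) := (sum_inner_smul w).symm
  have h2 : ∀ k, ⟪jacP W x y v, (e k : E n)⟫ = W.toFun x v (e k) y + W.toFun y v (e k) x := by
    intro k
    unfold jacP
    rw [sum_inner]
    rw [Finset.sum_eq_single k]
    · rw [real_inner_smul_left, inner_e, if_pos rfl, mul_one]
    · intro j _ hj
      rw [real_inner_smul_left, inner_e, if_neg hj, mul_zero]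
    · intro h
      exact absurd (Finset.mem_univ k) h
  have h3 : ∀ a c d : E n, W.toFun a c w d = ∑ k, ⟪w, (e k : E n)⟫ * W.toFun a c (e k) d := by
    intro a c d
    let f : E n →ₗ[ℝ] ℝ :=
      { toFun := fun z => W.toFun a c z d
        map_add' := fun z z' => W.add_three a c z z' d
        map_smul' := fun r z => by
          rw [RingHom.id_apply, smul_eq_mul]
          exact W.smul_three r a c z d }
    have h5 : f w = ∑ k, ⟪w, (e k : E n)⟫ * f (e k) := by
      conv_lhs => rw [h1]
      rw [map_sum]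
      exact Finset.sum_congr rfl fun k _ => by rw [map_smul, smul_eq_mul]
    exact h5
  rw [h3 x v y, h3 y v x, ← Finset.sum_add_distrib]
  conv_lhs => rw [h1]
  rw [inner_sum]
  refine Finset.sum_congr rfl fun k _ => ?_
  rw [real_inner_smul_right, h2]
  ring

private lemma jac_expand_K2 (W : CurvTensor n) (x y v : E n) (t : ℝ) :
    jac W (x + t • y) v = jac W x v + t • jacP W x y v + (t * t) • jac W y v := by
  apply ext_K2
  intro w
  rw [inner_add_left, inner_add_left, real_inner_smul_left, real_inner_smul_left, inner_jac, inner_jac,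
    inner_jac, inner_jacP_K2, W.add_left, W.smul_left, W.add_four, W.smul_four, W.add_four, W.smul_four]
  ring

private lemma aux_K2 {M : Type*} [AddCommGroup M] [Module ℝ M] (A B : M)
    (key : ∀ t : ℝ, t • A + (t * t) • B = 0) : A = 0 := by
  have k1 := key 1
  have k2 := key (-1)
  rw [one_smul, mul_one, one_smul] at k1
  have e1 : ((-1 : ℝ) * -1) = 1 := by norm_num
  rw [e1, one_smul, neg_smul, one_smul] at k2
  have k4 : (2 : ℝ) • A = 0 := by
    have k5 : (2 : ℝ) • A = (A + B) - (-A + B) := by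
      rw [two_smul]
      abel
    rw [k5, k1, k2, sub_zero]
  exact (smul_eq_zero.1 k4).resolve_left (by norm_num)

private lemma pol_K2 {p : ℕ} (W : CurvTensor n) (ω : Form n (p + 1))
    (h : ∀ x v : E n, Lw (jac W x v) (ω.curryLeft x) = 0) (x y v : E n) :
    Lw (jacP W x y v) (ω.curryLeft x) + Lw (jac W x v) (ω.curryLeft y) = 0 := by
  have key : ∀ t : ℝ, t • (Lw (jacP W x y v) (ω.curryLeft x) + Lw (jac W x v) (ω.curryLeft y)) +
      (t * t) • (Lw (jac W y v) (ω.curryLeft x) + Lw (jacP W x y v) (ω.curryLeft y)) = 0 := by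
    intro t
    have h1 := h (x + t • y) v
    rw [jac_expand_K2, map_add, map_smul, Lw_add_left, Lw_add_left, Lw_smul_left, Lw_smul_left,
      Lw_add, Lw_add, Lw_add, Lw_smul, Lw_smul, Lw_smul, h x v, h y v] at h1
    rw [← h1]
    simp only [smul_add, smul_smul, smul_zero, zero_add, add_zero]
    abel
  exact aux_K2 _ _ key

theorem K2 {p : ℕ} (W : CurvTensor n) (ω : Form n (p + 1))
    (h : ∀ x v : E n, Lw (jac W x v) (ω.curryLeft x) = 0) (x : E n) :
    DA (jacL W x) ω = Lw (ricL W x) (ω.curryLeft x) := by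
  have h1 : ∑ i, (Lw (jacP W x (e i) (e i)) (ω.curryLeft x) + Lw (jac W x (e i)) (ω.curryLeft (e i))) = 0 :=
    Finset.sum_eq_zero fun i _ => pol_K2 W ω h x (e i) (e i)
  rw [Finset.sum_add_distrib, ← Lw_sum_left] at h1
  have h2 : ∑ i, jacP W x (e i) (e i) = -ricL W x := by
    apply ext_K2
    intro w
    rw [sum_inner, inner_neg_left, inner_ricL, ← Finset.sum_neg_distrib]
    refine Finset.sum_congr rfl fun i _ => ?_
    rw [inner_jacP_K2, W.anti x (e i) w (e i)]
    have h3 : W.toFun (e i) (e i) w x = 0 := by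
      have := W.anti (e i) (e i) w x
      linarith
    rw [h3, add_zero]
  rw [h2, Lw_neg_left] at h1
  have h3 : DA (jacL W x) ω = ∑ i, Lw (jac W x (e i)) (ω.curryLeft (e i)) := rfl
  rw [h3, ← sub_eq_zero, ← h1]
  abel

end Pool.Agent.H91.AR
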