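import Pool.Agent.H91.AR.Defs

set_option autoImplicit false

/-!
# Project AR, piece P5
-/

namespace Pool.Agent.H91.AR

open Pool.Agent.H61.YP Pool.Agent.H8.RG Pool.Agent.H91.OC Pool.Agent.H21.OS
open scoped BigOperators RealInnerProductSpace

variable {n : ℕ}

private lemma P5_ip_DA {p : ℕ} (A : E n →ₗ[ℝ] E n) (ω η : Form n (p + 1)) :
    ip (DA A ω) η = ((p : ℝ) + 1) * ∑ i, ip (ω.curryLeft (e i)) (η.curryLeft (A (e i))) := by
  unfold DA
  rw [← ipB_apply, map_sum, LinearMap.sum_apply, Finset.mul_sum]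
  refine Finset.sum_congr rfl fun i _ => ?_
  rw [ipB_apply, adj]

/-- the bilinear form `⟪A x, y⟫ - μ ⟪u, x⟫ ⟪u, y⟫` -/
private noncomputable def P5_B (A : E n →ₗ[ℝ] E n) (u : E n) (μ : ℝ) :
    E n →ₗ[ℝ] E n →ₗ[ℝ] ℝ :=
  LinearMap.mk₂ ℝ (fun x y => ⟪A x, y⟫ - μ * (⟪u, x⟫ * ⟪u, y⟫))
    (fun x x' y => by simp only [map_add, inner_add_left, inner_add_right]; ring)
    (fun c x y => by
      simp only [map_smul, real_inner_smul_left, real_inner_smul_right, smul_eq_mul]; ring)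
    (fun x y y' => by simp only [inner_add_right]; ring)
    (fun c x y => by simp only [real_inner_smul_right, smul_eq_mul]; ring)

private lemma P5_B_apply (A : E n →ₗ[ℝ] E n) (u : E n) (μ : ℝ) (x y : E n) :
    P5_B A u μ x y = ⟪A x, y⟫ - μ * (⟪u, x⟫ * ⟪u, y⟫) := rfl

private lemma P5_lin (B : E n →ₗ[ℝ] ℝ) (x : E n) : ∑ k, ⟪x, (e k : E n)⟫ * B (e k) = B x := by
  conv_rhs => rw [← sum_inner_smul x]
  rw [map_sum]
  exact Finset.sum_congr rfl fun k _ => by rw [map_smul, smul_eq_mul]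

theorem factG {p : ℕ} (A : E n →ₗ[ℝ] E n) (hA : ∀ x y : E n, ⟪A x, y⟫ = ⟪x, A y⟫)
    (hp : ∀ x : E n, 0 ≤ ⟪A x, x⟫) (u : E n) (hu : ‖u‖ = 1) (μ : ℝ) (hAu : A u = μ • u)
    (ζ : Form n (p + 1)) (hζ : Lw u ζ = 0) (hD : DA A ζ = μ • ζ) (v : E n)
    (hv : ⟪u, v⟫ = 0) : ζ.curryLeft (A v) = 0 := by
  have huu : ⟪u, u⟫ = 1 := by rw [real_inner_self_eq_norm_sq, hu]; norm_num
  have hs : ∀ x y, P5_B A u μ x y = P5_B A u μ y x := by
    intro x y
    rw [P5_B_apply, P5_B_apply, hA x y, real_inner_comm]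
    ring
  have hpos : ∀ x, 0 ≤ P5_B A u μ x x := by
    intro x
    have h1 := hp (x - ⟪u, x⟫ • u)
    have h2 : ⟪A u, x⟫ = μ * ⟪u, x⟫ := by rw [hAu, real_inner_smul_left]
    have h3 : ⟪A x, u⟫ = μ * ⟪u, x⟫ := by rw [hA, hAu, real_inner_smul_right, real_inner_comm]
    have h4 : ⟪A u, u⟫ = μ := by rw [hAu, real_inner_smul_left, huu, mul_one]
    rw [map_sub, map_smul, inner_sub_left, inner_sub_right, inner_sub_right,
      real_inner_smul_left, real_inner_smul_left, real_inner_smul_right, real_inner_smul_right,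
      h2, h3, h4] at h1
    rw [P5_B_apply]
    linarith
  -- the form is `u` times its contraction
  have hw : ζ = Lw u (ζ.curryLeft u) := by
    have h1 : (Lw u ζ).curryLeft u = ⟪u, u⟫ • ζ - Lw u (ζ.curryLeft u) := car u u ζ
    rw [hζ, huu, one_smul, curry_zero] at h1
    exact (sub_eq_zero.1 h1.symm)
  have hn : ip ζ ζ = ((p : ℝ) + 1) * MB ζ u u := by
    have h1 : ip ζ ζ = ip (Lw u (ζ.curryLeft u)) ζ := by rw [← hw]
    rw [h1, adj, MB_apply]
  have htr : ∑ i, MB ζ (e i) (A (e i)) = μ * MB ζ u u := by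
    have h1 := P5_ip_DA A ζ ζ
    rw [hD, ip_smul_left, hn] at h1
    have h2 : ((p : ℝ) + 1) ≠ 0 := by positivity
    have h3 : ((p : ℝ) + 1) * ∑ i, MB ζ (e i) (A (e i)) = ((p : ℝ) + 1) * (μ * MB ζ u u) := by
      have h4 : ∀ i : Fin n, MB ζ (e i) (A (e i)) =
          ip (ζ.curryLeft (e i)) (ζ.curryLeft (A (e i))) := fun i => rfl
      simp_rw [h4]
      rw [← h1]
      ring
    exact mul_left_cancel₀ h2 h3
  have h0 : ∑ j, ∑ k, P5_B A u μ (e j) (e k) * MB ζ (e j) (e k) = 0 := by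
    have h1 : ∀ j : Fin n, ∑ k, P5_B A u μ (e j) (e k) * MB ζ (e j) (e k) =
        MB ζ (e j) (A (e j)) - μ * (⟪u, (e j : E n)⟫ * MB ζ (e j) u) := by
      intro j
      rw [← P5_lin (MB ζ (e j)) (A (e j)), ← P5_lin (MB ζ (e j)) u, Finset.mul_sum,
        Finset.mul_sum, ← Finset.sum_sub_distrib]
      refine Finset.sum_congr rfl fun k _ => ?_
      rw [P5_B_apply]
      ring
    simp_rw [h1]
    rw [Finset.sum_sub_distrib, ← Finset.mul_sum, htr]
    have h2 : ∑ j, ⟪u, (e j : E n)⟫ * MB ζ (e j) u = MB ζ u u := by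
      have h3 := P5_lin (MB ζ u) u
      rw [← h3]
      exact Finset.sum_congr rfl fun j _ => by rw [MB_comm]
    rw [h2, sub_self]
  have hfin := psd_prod (P5_B A u μ) (MB ζ) hs hpos (MB_comm ζ) (fun x => MB_vec_nonneg ζ x) h0
    v (A v)
  have hvec : ∑ i, P5_B A u μ v (e i) • (e i : E n) = A v := by
    have h1 : ∀ i : Fin n, P5_B A u μ v (e i) = ⟪A v, (e i : E n)⟫ := by
      intro i
      rw [P5_B_apply, hv]
      ring
    simp_rw [h1]
    exact sum_inner_smul (A v)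
  rw [hvec, MB_apply] at hfin
  by_contra hne
  exact (CurvTensor.ip_pos _ hne).ne' hfin

end Pool.Agent.H91.AR
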