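import Pool.Agent.H91.AR.P1
import Pool.Agent.H91.AR.P4
import Pool.Agent.H91.AR.P5

set_option autoImplicit false

/-!
# Project AR, piece P6a
-/

namespace Pool.Agent.H91.AR

open Pool.Agent.H61.YP Pool.Agent.H8.RG Pool.Agent.H91.OC Pool.Agent.H91.OR Pool.Agent.H91.SX
  Pool.Agent.H21.OS
open scoped BigOperators RealInnerProductSpace

variable {n : ℕ}

theorem stepA1 {q : ℕ} (W : CurvTensor n) (hpos : ∀ x y : E n, 0 ≤ W.toFun x y y x)
    (ω : Form n (q + 2)) (h : ∀ x v : E n, Lw (jac W x v) (ω.curryLeft x) = 0) (x b1 b2 : E n)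
    (h1 : ‖b1‖ = 1) (h12 : ⟪b1, b2⟫ = 0) (μ1 μ2 : ℝ) (hμ1 : 0 < μ1)
    (hμ2 : 0 < μ2) (e1 : jac W x b1 = μ1 • b1) (e2 : jac W x b2 = μ2 • b2) :
    (Lw b1 ω).curryLeft b2 = 0 := by
  have hsym : ∀ y z : E n, ⟪jacL W x y, z⟫ = ⟪y, jacL W x z⟫ := fun y z => by
    rw [jacL_apply, jacL_apply, jac_symm W x y z]
    exact real_inner_comm _ _
  have hp : ∀ y : E n, 0 ≤ ⟪jacL W x y, y⟫ := fun y => by
    rw [jacL_apply, inner_jac]
    exact hpos x y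
  have hM1 : jacL W x b1 = μ1 • b1 := e1
  have hM2 : jacL W x b2 = μ2 • b2 := e2
  have h3 : Lw b1 (ω.curryLeft x) = 0 := by
    have h4 := h x b1
    rw [e1, Lw_smul_left] at h4
    exact (smul_eq_zero.1 h4).resolve_left hμ1.ne'
  have h4 : Lw b1 (DA (jacL W x) ω) = 0 := by
    rw [K2 W ω h x, Lw_anti, h3, Lw_zero, neg_zero]
  have h5 : DA (jacL W x) (Lw b1 ω) = μ1 • Lw b1 ω := by
    rw [DA_Lw, hM1, h4, add_zero, Lw_smul_left]
  have h6 : Lw b1 (Lw b1 ω) = 0 := by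
    have h7 := Lw_anti b1 b1 ω
    have h8 : (2 : ℝ) • Lw b1 (Lw b1 ω) = 0 := by
      rw [two_smul]
      nth_rewrite 1 [h7]
      exact neg_add_cancel _
    exact (smul_eq_zero.1 h8).resolve_left two_ne_zero
  have h7 := factG (jacL W x) hsym hp b1 h1 μ1 hM1 (Lw b1 ω) h6 h5 b2 h12
  rw [hM2, map_smul] at h7
  exact (smul_eq_zero.1 h7).resolve_left hμ2.ne'

end Pool.Agent.H91.AR
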